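import Pool.Agent.Lib.Pc0b458X.Stmt

/-!
# Simple almost ordinary abelian varieties

There is at most one relation between the Frobenius eigenvalues of a simple abelian variety of
dimension `g` and `p`-rank `g - 1` (Lenstra, Zarhin).
-/

namespace Pc0b458X

open Pc0b458F (CMDatum rho)

variable {Γ : Galois} (X : CMDatum Γ.G Γ.D Γ.c)

/-- `B` is simple (the CM algebra is a field) and its `p`-rank, the number of the slopes `0`, is
`dim B - 1`. -/
def AlmostOrdinary : Prop :=
  (∀ x y : X.S, ∃ g : Γ.G, g • x = y) ∧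
    2 * ((Finset.univ.filter fun x : X.S => X.s x = 0).card + 1) = Fintype.card X.S

section

variable {X}

theorem card_zero_one : (Finset.univ.filter fun x : X.S => X.s x = 0).card
    = (Finset.univ.filter fun x : X.S => X.s x = 1).card := by
  refine Finset.card_bij (fun x _ => Γ.c • x) ?_ ?_ ?_
  · intro x hx
    rw [Finset.mem_filter] at hx ⊢
    refine ⟨Finset.mem_univ _, ?_⟩
    rw [X.s_conj, hx.2]
    norm_num
  · intro x _ y _ h
    exact X.smul_inj h
  · intro y hy
    rw [Finset.mem_filter] at hy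
    refine ⟨Γ.c • y, ?_, X.conj_conj y⟩
    rw [Finset.mem_filter]
    refine ⟨Finset.mem_univ _, ?_⟩
    rw [X.s_conj, hy.2]
    norm_num

/-- the element of slope `1 / 2` -/
theorem AlmostOrdinary.exists_half (h : AlmostOrdinary X) : ∃ y : X.S, X.s y = 1 / 2 ∧
    ∀ x : X.S, x = y ∨ x = Γ.c • y ∨ X.s x = 0 ∨ X.s x = 1 := by
  classical
  set Z := Finset.univ.filter fun x : X.S => X.s x = 0 with hZ
  set O := Finset.univ.filter fun x : X.S => X.s x = 1 with hO
  set T := Finset.univ.filter fun x : X.S => ¬ X.s x = 0 ∧ ¬ X.s x = 1 with hT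
  have hcard : T.card = 2 := by
    have h1 : (Z ∪ O) ∪ T = Finset.univ := by
      ext x
      simp only [hZ, hO, hT, Finset.mem_union, Finset.mem_filter, Finset.mem_univ, true_and,
        iff_true]
      tauto
    have h2 : Disjoint Z O := by
      rw [Finset.disjoint_left]
      intro x hx hx'
      rw [hZ, Finset.mem_filter] at hx
      rw [hO, Finset.mem_filter] at hx'
      have := hx.2.symm.trans hx'.2
      norm_num at this
    have h3 : Disjoint (Z ∪ O) T := by
      rw [Finset.disjoint_left]
      intro x hx hx'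
      rw [hT, Finset.mem_filter] at hx'
      rw [Finset.mem_union, hZ, hO, Finset.mem_filter, Finset.mem_filter] at hx
      rcases hx with hx | hx
      · exact hx'.2.1 hx.2
      · exact hx'.2.2 hx.2
    have h4 := congrArg Finset.card h1
    rw [Finset.card_union_of_disjoint h3, Finset.card_union_of_disjoint h2, Finset.card_univ] at h4
    have h5 := h.2
    have h6 : Z.card = O.card := card_zero_one
    rw [← hZ] at h5
    omega
  obtain ⟨y, hy⟩ : T.Nonempty := by
    rw [← Finset.card_pos, hcard]
    norm_num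
  have hcy : Γ.c • y ∈ T := by
    rw [hT, Finset.mem_filter] at hy ⊢
    refine ⟨Finset.mem_univ _, ?_, ?_⟩
    · rw [X.s_conj]
      intro h0
      exact hy.2.2 (by linarith)
    · rw [X.s_conj]
      intro h0
      exact hy.2.1 (by linarith)
  have hTe : T = {y, Γ.c • y} := by
    symm
    apply Finset.eq_of_subset_of_card_le
    · intro x hx
      rw [Finset.mem_insert, Finset.mem_singleton] at hx
      rcases hx with rfl | rfl
      · exact hy
      · exact hcy
    · rw [hcard, Finset.card_pair (X.conj_ne y).symm]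
  have hall : ∀ x : X.S, x = y ∨ x = Γ.c • y ∨ X.s x = 0 ∨ X.s x = 1 := by
    intro x
    by_cases hx : x ∈ T
    · rw [hTe, Finset.mem_insert, Finset.mem_singleton] at hx
      rcases hx with hx | hx
      · exact Or.inl hx
      · exact Or.inr (Or.inl hx)
    · rw [hT, Finset.mem_filter] at hx
      by_contra hno
      apply hx
      refine ⟨Finset.mem_univ _, ?_, ?_⟩
      · intro h0; exact hno (Or.inr (Or.inr (Or.inl h0)))
      · intro h0; exact hno (Or.inr (Or.inr (Or.inr h0)))
  refine ⟨y, ?_, hall⟩
  by_contra hne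
  rw [hT, Finset.mem_filter] at hy
  obtain ⟨m, hm⟩ := X.integral {y} (by
    intro d hd x hx
    rw [Finset.mem_singleton] at hx ⊢
    subst hx
    have h1 := X.s_dec d hd x
    rcases hall (d • x) with h2 | h2 | h2 | h2
    · exact h2
    · exfalso
      rw [h2, X.s_conj] at h1
      exact hne (by linarith)
    · exfalso
      rw [h2] at h1
      exact hy.2.1 h1.symm
    · exfalso
      rw [h2] at h1
      exact hy.2.2 h1.symm)
  rw [Finset.sum_singleton] at hm
  have h1 := X.s_nonneg y
  have h2 := X.s_le_one y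
  rw [hm] at h1 h2
  have h3 : 0 ≤ m := by exact_mod_cast h1
  have h4 : m ≤ 1 := by exact_mod_cast h2
  have h5 : m = 0 ∨ m = 1 := by omega
  rcases h5 with h5 | h5
  · exact hy.2.1 (by rw [hm, h5]; norm_num)
  · exact hy.2.2 (by rw [hm, h5]; norm_num)

theorem AlmostOrdinary.commutative (h : AlmostOrdinary X) : Commutative X := by
  obtain ⟨y, hy, hall⟩ := h.exists_half
  intro z hz
  have key : ∀ w : X.S, X.a w = X.a z → w = z := by
    intro w hw
    by_contra hne
    obtain ⟨g, hg⟩ := h.1 z y
    have h1 := congrFun hw g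
    rw [X.a_apply, X.a_apply, hg, hy] at h1
    have h2 : X.s (g • w) = 1 / 2 := by linarith
    rcases hall (g • w) with h3 | h3 | h3 | h3
    · exact hne (X.smul_inj (h3.trans hg.symm))
    · have h4 : w = Γ.c • z := by
        apply X.smul_inj (g := g)
        rw [h3, ← hg, X.conj_comm]
      rw [h4, X.a_conj] at hw
      apply hz
      intro g'
      have h5 := congrFun hw g'
      rw [Pi.neg_apply, X.a_apply] at h5
      linarith
    · rw [h3] at h2; norm_num at h2
    · rw [h3] at h2; norm_num at h2
  unfold index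
  rw [Nat.card_eq_one_iff_unique]
  refine ⟨⟨fun u v => Subtype.ext ((key _ u.2.2).trans (key _ v.2.2).symm)⟩,
    ⟨z, MulAction.mem_orbit_self z, rfl⟩⟩

theorem AlmostOrdinary.even (h : AlmostOrdinary X) (n : {x : X.S // X.s x = 1} → ℤ)
    (hn : ∑ x, n x • X.a x = 0) : ∀ x, (2 : ℤ) ∣ n x := by
  classical
  obtain ⟨y, hy, hall⟩ := h.exists_half
  -- the parity at the place `g`
  have key : ∀ g : Γ.G, (2 : ℤ) ∣ ∑ x : {x : X.S // X.s x = 1},
      if X.s (g • (x : X.S)) = 1 / 2 then 0 else n x := by
    intro g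
    have h1 := congrFun hn g
    rw [Finset.sum_apply] at h1
    have h2 : ∀ x : {x : X.S // X.s x = 1}, ∃ m : ℤ,
        (n x • X.a (x : X.S)) g = (((if X.s (g • (x : X.S)) = 1 / 2 then 0 else n x) + 2 * m : ℤ) : ℚ) / 2 := by
      intro x
      rw [Pi.smul_apply, X.a_apply, zsmul_eq_mul]
      by_cases hx : X.s (g • (x : X.S)) = 1 / 2
      · refine ⟨0, ?_⟩
        rw [if_pos hx, hx]
        norm_num
      · rw [if_neg hx]
        rcases hall (g • (x : X.S)) with h3 | h3 | h3 | h3
        · rw [h3] at hx; exact absurd hy hx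
        · rw [h3, X.s_conj, hy] at hx; norm_num at hx
        · refine ⟨-n x, ?_⟩
          rw [h3]
          push_cast
          ring
        · refine ⟨0, ?_⟩
          rw [h3]
          push_cast
          ring
    choose m hm using h2
    rw [Finset.sum_congr rfl (fun x _ => hm x), ← Finset.sum_div, ← Int.cast_sum,
      Finset.sum_add_distrib, ← Finset.mul_sum] at h1
    have h4 : ((∑ x : {x : X.S // X.s x = 1}, if X.s (g • (x : X.S)) = 1 / 2 then 0 else n x)
        + 2 * ∑ x, m x : ℤ) = 0 := by
      have h5 : (((∑ x : {x : X.S // X.s x = 1}, if X.s (g • (x : X.S)) = 1 / 2 then 0 else n x)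
        + 2 * ∑ x, m x : ℤ) : ℚ) / 2 = 0 := h1
      have h6 : (((∑ x : {x : X.S // X.s x = 1}, if X.s (g • (x : X.S)) = 1 / 2 then 0 else n x)
        + 2 * ∑ x, m x : ℤ) : ℚ) = 0 := by linarith
      exact_mod_cast h6
    exact ⟨-∑ x, m x, by linarith⟩
  intro x
  have h1 := key 1
  obtain ⟨g, hg⟩ := h.1 (x : X.S) y
  have h2 := key g
  have h3 : (∑ z : {x : X.S // X.s x = 1}, if X.s ((1 : Γ.G) • (z : X.S)) = 1 / 2 then 0 else n z)
      = ∑ z, n z := by
    refine Finset.sum_congr rfl fun z _ => ?_
    rw [if_neg]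
    rw [one_smul, z.2]
    norm_num
  have h4 : (∑ z : {x : X.S // X.s x = 1}, if X.s (g • (z : X.S)) = 1 / 2 then 0 else n z)
      = (∑ z, n z) - n x := by
    rw [← Finset.add_sum_erase _ _ (Finset.mem_univ x), ← Finset.add_sum_erase _ n (Finset.mem_univ x),
      if_pos (by rw [hg, hy])]
    rw [zero_add, add_sub_cancel_left]
    refine Finset.sum_congr rfl fun z hz => ?_
    rw [Finset.mem_erase] at hz
    rw [if_neg]
    intro h5
    rcases hall (g • (z : X.S)) with h6 | h6 | h6 | h6
    · exact hz.1 (Subtype.ext (X.smul_inj (h6.trans hg.symm)))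
    · have h7 : (z : X.S) = Γ.c • (x : X.S) := by
        apply X.smul_inj (g := g)
        rw [h6, ← hg, X.conj_comm]
      have h8 := z.2
      rw [h7, X.s_conj, x.2] at h8
      norm_num at h8
    · rw [h6] at h5; norm_num at h5
    · rw [h6] at h5; norm_num at h5
  rw [h3] at h1
  rw [h4] at h2
  have h5 := dvd_sub h1 h2
  rwa [sub_sub_cancel] at h5

theorem AlmostOrdinary.linearIndependent (h : AlmostOrdinary X) :
    LinearIndependent ℚ (fun x : {x : X.S // X.s x = 1} => X.a (x : X.S)) := by
  rw [← LinearIndependent.iff_fractionRing ℤ ℚ, Fintype.linearIndependent_iff]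
  intro n hn
  have key : ∀ k : ℕ, ∃ m : {x : X.S // X.s x = 1} → ℤ, (∀ x, n x = 2 ^ k * m x) ∧
      ∑ x, m x • X.a (x : X.S) = 0 := by
    intro k
    induction k with
    | zero => exact ⟨n, fun x => by rw [pow_zero, one_mul], hn⟩
    | succ k ih =>
      obtain ⟨m, hm, hm'⟩ := ih
      choose r hr using h.even m hm'
      refine ⟨r, fun x => by rw [hm, hr, pow_succ]; ring, ?_⟩
      have h1 : (2 : ℤ) • ∑ x, r x • X.a (x : X.S) = 0 := by
        rw [Finset.smul_sum, ← hm']
        refine Finset.sum_congr rfl fun x _ => ?_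
        rw [smul_smul, hr]
      rcases smul_eq_zero.1 h1 with h2 | h2
      · norm_num at h2
      · exact h2
  intro x
  by_contra hne
  obtain ⟨k, hk⟩ : ∃ k : ℕ, (n x).natAbs < 2 ^ k := ⟨(n x).natAbs, Nat.lt_two_pow_self⟩
  obtain ⟨m, hm, -⟩ := key k
  have h1 : (2 ^ k : ℤ) ∣ n x := ⟨m x, hm x⟩
  have h2 := Int.natAbs_dvd_natAbs.2 h1
  rw [Int.natAbs_pow] at h2
  have h3 := Nat.le_of_dvd (Int.natAbs_pos.2 hne) h2
  norm_num at h3
  omega

/-- There is at most one relation between the Frobenius eigenvalues. -/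
theorem AlmostOrdinary.rank (h : AlmostOrdinary X) : eigenvalues X ≤ 2 * rank X + 2 := by
  classical
  have h1 : eigenvalues X ≤ Fintype.card X.S := by
    unfold eigenvalues
    calc ((Finset.univ.image X.a).erase 0).card ≤ (Finset.univ.image X.a).card :=
          Finset.card_le_card (Finset.erase_subset _ _)
      _ ≤ (Finset.univ : Finset X.S).card := Finset.card_image_le
      _ = Fintype.card X.S := Finset.card_univ
  have h2 : (Finset.univ.filter fun x : X.S => X.s x = 1).card ≤ Pc0b458X.rank X := by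
    have h3 : Fintype.card {x : X.S // X.s x = 1}
        = (Finset.univ.filter fun x : X.S => X.s x = 1).card := Fintype.card_subtype _
    rw [← h3, Pc0b458X.rank]
    have h4 := h.linearIndependent
    have h5 := finrank_span_eq_card h4
    rw [← h5]
    apply Submodule.finrank_mono
    apply Submodule.span_mono
    rintro _ ⟨x, rfl⟩
    exact ⟨x, rfl⟩
  have h3 := h.2
  rw [card_zero_one] at h3
  omega

end

end Pc0b458X
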