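import Pool.Agent.Lib.Pc0b458X.Sign
import Pool.Agent.Lib.Pc0b458I.Main

/-!
# The weights of the subsets
-/

namespace Pc0b458X

open Pc0b458Z
open Pc0b458F (CMDatum rho)

/-- the weight has an algebraic class which is not isotropic -/
def NN (A : CMAb) (η : Fin A.g → ℤ) : Prop := A.toV.NonNull η

/-- the weight has the right sign -/
def GG (A : CMAb) (η : Fin A.g → ℤ) : Prop := A.toV.Good η

namespace BridgeAux

section Wt

variable {g : ℕ} {S : Type} [DecidableEq S]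

/-- the weight of an element -/
def w (e : S ≃ Fin g × Bool) (x : S) : Fin g → ℤ :=
  fun s => (if e.symm (s, true) = x then 1 else 0) - (if e.symm (s, false) = x then 1 else 0)

theorem wt_eq_sum (e : S ≃ Fin g × Bool) (J : Finset S) : wt e J = ∑ x ∈ J, w e x := by
  funext s
  rw [Finset.sum_apply]
  simp only [wt, w, Finset.sum_sub_distrib, Finset.sum_ite_eq]

theorem wt_vals (e : S ≃ Fin g × Bool) (J : Finset S) (s : Fin g) :
    wt e J s = -1 ∨ wt e J s = 0 ∨ wt e J s = 1 := by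
  simp only [wt]
  split_ifs <;> simp

theorem wt_pair (e : S ≃ Fin g × Bool) {x y : S} (h : x ≠ y) : wt e {x, y} = w e x + w e y := by
  rw [wt_eq_sum, Finset.sum_pair h]

theorem wt_erase (e : S ≃ Fin g × Bool) {J : Finset S} {x : S} (h : x ∈ J) :
    wt e (J.erase x) + w e x = wt e J := by
  rw [wt_eq_sum, wt_eq_sum, Finset.sum_erase_add _ _ h]

theorem wt_insert (e : S ≃ Fin g × Bool) {J : Finset S} {x : S} (h : x ∉ J) :
    wt e (insert x J) = w e x + wt e J := by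
  rw [wt_eq_sum, wt_eq_sum, Finset.sum_insert h]

end Wt

theorem nonNull_zero {A : Pc0b458V.CMAb} : A.NonNull 0 := by
  obtain ⟨a, a', hP, r, hr, he⟩ := Pc0b458V.CMAb.good_zero (A := A)
  refine ⟨a, a', hP, fun h => ?_⟩
  rw [mul_assoc, h, mul_zero] at he
  exact hr.ne (by exact_mod_cast he)

theorem nonNull_add {A : Pc0b458V.CMAb} {η θ : Fin A.g → ℤ}
    (hη : ∀ s, η s = -1 ∨ η s = 0 ∨ η s = 1) (hθ : ∀ s, θ s = -1 ∨ θ s = 0 ∨ θ s = 1)
    (h : ∀ s, η s + θ s = -1 ∨ η s + θ s = 0 ∨ η s + θ s = 1)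
    (h1 : A.NonNull η) (h2 : A.NonNull θ) : A.NonNull (η + θ) := by
  by_cases hη0 : η = 0
  · rw [hη0, zero_add]; exact h2
  by_cases hθ0 : θ = 0
  · rw [hθ0, add_zero]; exact h1
  by_cases h0 : η + θ = 0
  · rw [h0]; exact nonNull_zero
  obtain ⟨a, a', hP, ha⟩ := h1
  obtain ⟨b, b', hQ, hb⟩ := h2
  obtain ⟨ε, hε, hR⟩ := Pc0b458V.CMAb.ml_P_add hη hθ h hη0 hθ0 h0 hP hQ
  refine ⟨_, _, hR, ?_⟩
  have e1 : ε ≠ 0 := by rcases hε with rfl | rfl <;> norm_num
  have e2 : ((-1 : ℂ)) ^ (Pc0b458V.supp η ∩ Pc0b458V.supp θ).card ≠ 0 := by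
    apply pow_ne_zero; norm_num
  have ha1 := left_ne_zero_of_mul ha
  have ha2 := right_ne_zero_of_mul ha
  have hb1 := left_ne_zero_of_mul hb
  have hb2 := right_ne_zero_of_mul hb
  exact mul_ne_zero (mul_ne_zero e1 (mul_ne_zero ha1 hb1))
    (mul_ne_zero (mul_ne_zero e1 e2) (mul_ne_zero ha2 hb2))

theorem rank_two_aux {A : Pc0b458V.CMAb} {η : Fin A.g → ℤ}
    (hvals : ∀ s, η s = -1 ∨ η s = 0 ∨ η s = 1) (h0 : η ≠ 0)
    (H : ∀ n, Pc0b458V.size η = 2 * n → ∀ z ∈ Submodule.span ℝ (A.alg n),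
      z ∈ Submodule.span ℂ ({Pc0b458V.mon η, Pc0b458V.mon (-η)} : Set (Pc0b458V.Coh A.g 1)) →
      ∃ r : ℝ, 0 ≤ r ∧ (-1) ^ n * A.int (z * z * Pc0b458V.pol A.g ^ (A.g - 2 * n)) = r)
    (hN : A.NonNull η) : A.Good η := by
  obtain ⟨a, a', ⟨k, hk, hz⟩, ha⟩ := hN
  have hg : 2 * k ≤ A.g := by
    have h1 := Pc0b458V.card_zer hvals
    omega
  have hz1 := Pc0b458V.CMAb.R1_span hz
  obtain ⟨r, hr, hr2⟩ := H k hk (a • Pc0b458V.mo η ∅ + a' • Pc0b458V.mo (-η) ∅) hz1 (by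
      rw [Pc0b458V.mon_eq, Pc0b458V.mon_eq]
      exact Submodule.add_mem _ (Submodule.smul_mem _ _ (Submodule.subset_span (by simp)))
        (Submodule.smul_mem _ _ (Submodule.subset_span (by simp))))
  rw [Pc0b458V.CMAb.pair_form hg hvals h0 hk a a'] at hr2
  obtain ⟨t, ht, ht'⟩ := A.top_pos
  have ht'' : A.top = t := ht'
  rw [ht''] at hr2
  have hp : ((-1 : ℂ) ^ k) * ((-1 : ℂ) ^ k) = 1 := by
    rw [← mul_pow]; simp
  set c : ℝ := 2 * ((A.g - 2 * k).factorial : ℝ) * t with hc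
  have hcpos : 0 < c := by
    have : (0 : ℝ) < ((A.g - 2 * k).factorial : ℝ) := by exact_mod_cast Nat.factorial_pos _
    positivity
  have e3 : (c : ℂ) * ((Pc0b458V.sg η : ℂ) * a * a') = r := by
    rw [← hr2, hc]
    push_cast
    linear_combination
      (-(2 * ((A.g - 2 * k).factorial : ℂ) * t * ((Pc0b458V.sg η : ℂ) * a * a'))) * hp
  have hc0 : (c : ℂ) ≠ 0 := by exact_mod_cast hcpos.ne'
  have e4 : (Pc0b458V.sg η : ℂ) * a * a' = ((r / c : ℝ) : ℂ) := by
    push_cast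
    rw [← e3]
    field_simp
  refine ⟨a, a', ⟨k, hk, hz⟩, r / c, ?_, e4⟩
  refine lt_of_le_of_ne (div_nonneg hr hcpos.le) ?_
  intro h
  rw [← h, Complex.ofReal_zero, mul_assoc] at e4
  rcases mul_eq_zero.1 e4 with h | h
  · have h5 := Pc0b458V.sg_sq hvals
    have h6 : Pc0b458V.sg η = 0 := by exact_mod_cast h
    rw [h6] at h5
    norm_num at h5
  · exact ha h

variable {Γ : Galois} {A : CMAb}

theorem GG_zero : GG A 0 := Pc0b458V.CMAb.good_zero (A := A.toV)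

theorem NN_add {η θ : Fin A.g → ℤ}
    (hη : ∀ s, η s = -1 ∨ η s = 0 ∨ η s = 1) (hθ : ∀ s, θ s = -1 ∨ θ s = 0 ∨ θ s = 1)
    (h : ∀ s, η s + θ s = -1 ∨ η s + θ s = 0 ∨ η s + θ s = 1)
    (h1 : NN A η) (h2 : NN A θ) : NN A (η + θ) := nonNull_add (A := A.toV) hη hθ h h1 h2

theorem GG_add {η θ : Fin A.g → ℤ}
    (hη : ∀ s, η s = -1 ∨ η s = 0 ∨ η s = 1) (hθ : ∀ s, θ s = -1 ∨ θ s = 0 ∨ θ s = 1)
    (h : ∀ s, η s + θ s = -1 ∨ η s + θ s = 0 ∨ η s + θ s = 1)
    (h1 : GG A η) (h2 : GG A θ) : GG A (η + θ) :=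
  Pc0b458V.CMAb.good_add (A := A.toV) hη hθ h h1 h2

theorem w_conj (R : Arith Γ A) (x : R.X.S) : w R.e (Γ.c • x) = -w R.e x := by
  funext s
  have h1 : ∀ b, R.e.symm (s, b) = Γ.c • x ↔ R.e.symm (s, !b) = x := by
    intro b
    rw [Equiv.symm_apply_eq, Equiv.symm_apply_eq, R.e_conj]
    rcases R.e x with ⟨t, b'⟩
    cases b <;> cases b' <;> simp
  have h2 := h1 true
  have h3 := h1 false
  simp only [Bool.not_true, Bool.not_false] at h2 h3
  simp only [w, Pi.neg_apply, h2, h3]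
  ring

theorem size_wt (R : Arith Γ A) {J : Finset R.X.S} (hJ : R.X.Free J) :
    Pc0b458V.size (wt R.e J) = J.card := by
  have h1 : ∀ s, (wt R.e J s).natAbs = ∑ b : Bool, (if R.e.symm (s, b) ∈ J then 1 else 0) := by
    intro s
    have h2 : ¬ (R.e.symm (s, true) ∈ J ∧ R.e.symm (s, false) ∈ J) := by
      rintro ⟨h3, h4⟩
      apply hJ _ h3
      have h5 : Γ.c • R.e.symm (s, true) = R.e.symm (s, false) := by
        apply R.e.injective
        rw [R.e_conj]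
        simp
      rw [h5]
      exact h4
    rw [Fintype.sum_bool]
    simp only [wt]
    split_ifs with h3 h4 <;> simp_all
  have h2 : Pc0b458V.size (wt R.e J) =
      ∑ p : Fin A.g × Bool, (if R.e.symm p ∈ J then 1 else 0) := by
    rw [Fintype.sum_prod_type]
    exact Finset.sum_congr rfl fun s _ => h1 s
  rw [h2, Equiv.sum_comp R.e.symm (fun x => if x ∈ J then 1 else 0)]
  simp

theorem wt_ne_zero (R : Arith Γ A) {J : Finset R.X.S} (hJ : R.X.Free J) (h : J ≠ ∅) :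
    wt R.e J ≠ 0 := by
  intro h0
  have h1 := size_wt R hJ
  rw [h0] at h1
  have h2 : Pc0b458V.size (0 : Fin A.g → ℤ) = 0 := by simp [Pc0b458V.size]
  rw [h2] at h1
  exact h (Finset.card_eq_zero.1 h1.symm)

theorem free_pair (X : CMDatum Γ.G Γ.D Γ.c) {x y : X.S} (h : y ≠ Γ.c • x) :
    X.Free {x, y} := by
  intro z hz
  rw [Finset.mem_insert, Finset.mem_singleton] at hz
  rw [Finset.mem_insert, Finset.mem_singleton]
  rcases hz with rfl | rfl
  · rintro (h1 | h1)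
    · exact X.conj_ne _ h1
    · exact h h1.symm
  · rintro (h1 | h1)
    · exact h (by rw [← h1, X.conj_conj])
    · exact X.conj_ne _ h1

theorem pair (R : Arith Γ A) {x y : R.X.S} (hxy : x ≠ y) (hc : y ≠ Γ.c • x)
    (h : R.X.a x + R.X.a y = 0) :
    NN A (w R.e x + w R.e y) ∧ GG A (w R.e x + w R.e y) := by
  have h1 : A.Algebraic (wt R.e {x, y}) := R.divisors x y hxy hc fun g => by
    have h2 := congrFun h g
    rw [Pi.add_apply, Pi.zero_apply, CMDatum.a_apply, CMDatum.a_apply] at h2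
    linarith
  have hF := free_pair R.X hc
  have h0 : wt R.e {x, y} ≠ 0 := wt_ne_zero R hF (Finset.insert_ne_empty _ _)
  have hN : NN A (wt R.e {x, y}) := Pc0b458V.CMAb.nonNull_of_algebraic (A := A.toV) h0 h1
  have hs : Pc0b458V.size (wt R.e {x, y}) ≤ 4 := by
    rw [size_wt R hF, Finset.card_pair hxy]
    norm_num
  have hG : GG A (wt R.e {x, y}) :=
    Pc0b458V.CMAb.base (A := A.toV) (wt_vals R.e {x, y}) h0 hs hN
  rw [wt_pair _ hxy] at hN hG
  exact ⟨hN, hG⟩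

theorem pair_vals {g : ℕ} {S : Type} [DecidableEq S] (e : S ≃ Fin g × Bool) {x y : S} (h : x ≠ y) :
    ∀ s, (w e x + w e y) s = -1 ∨ (w e x + w e y) s = 0 ∨ (w e x + w e y) s = 1 := by
  rw [← wt_pair e h]
  exact wt_vals _ _

/-- adding a pair -/
theorem step (R : Arith Γ A) {J J' : Finset R.X.S} {x y : R.X.S} (hxy : x ≠ y)
    (hc : y ≠ Γ.c • x) (h : R.X.a x + R.X.a y = 0)
    (he : wt R.e J' = wt R.e J + (w R.e x + w R.e y)) :
    (NN A (wt R.e J) → NN A (wt R.e J')) ∧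
      (GG A (wt R.e J) → GG A (wt R.e J')) := by
  obtain ⟨h1, h2⟩ := pair R hxy hc h
  have h3 : ∀ s, wt R.e J s + (w R.e x + w R.e y) s = -1 ∨
      wt R.e J s + (w R.e x + w R.e y) s = 0 ∨ wt R.e J s + (w R.e x + w R.e y) s = 1 := by
    intro s
    have := wt_vals R.e J' s
    rw [he] at this
    exact this
  rw [he]
  exact ⟨fun h4 => NN_add (wt_vals R.e J) (pair_vals R.e hxy) h3 h4 h1,
    fun h4 => GG_add (wt_vals R.e J) (pair_vals R.e hxy) h3 h4 h2⟩

theorem tate (R : Arith Γ A) (J : Finset R.X.S) (hJ : R.X.Free J)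
    (hN : NN A (wt R.e J)) : Even J.card ∧ ∑ x ∈ J, R.X.a x = 0 := by
  by_cases h : J = ∅
  · rw [h]; simp
  have h0 := wt_ne_zero R hJ h
  have hA := Pc0b458V.CMAb.algebraic_of_nonNull (A := A.toV) (wt_vals R.e J) h0 hN
  obtain ⟨a, a', ⟨k, hk, -⟩, -⟩ := hN
  have hk' : J.card = 2 * k := by rw [← size_wt R hJ]; exact hk
  refine ⟨⟨k, by omega⟩, ?_⟩
  have hT := (R.frobenius k J hk' hJ hA).2
  funext g
  rw [Finset.sum_apply]
  simp only [CMDatum.a_apply, Finset.sum_sub_distrib, hT g, Finset.sum_const, hk', Pi.zero_apply]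
  rw [nsmul_eq_mul]
  push_cast
  ring

theorem rankTwo (R : Arith Γ A) (J : Finset R.X.S) (hJ : R.X.Free J) (hR : R.X.RankTwo J)
    (hN : NN A (wt R.e J)) : GG A (wt R.e J) := by
  by_cases h : J = ∅
  · have e : wt R.e J = 0 := by rw [wt_eq_sum, h, Finset.sum_empty]
    rw [e]
    exact GG_zero
  have h0 := wt_ne_zero R hJ h
  refine rank_two_aux (A := A.toV) (wt_vals R.e J) h0 ?_ hN
  intro n hn z hz hz'
  have hk' : J.card = 2 * n := by rw [← size_wt R hJ]; exact hn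
  exact R.ancona n J hk' hJ hR z hz hz'

end BridgeAux

open BridgeAux

variable {Γ : Galois} {A : CMAb}

theorem signSystem (R : Arith Γ A) : SignSystem R.X (fun J => NN A (wt R.e J))
    (fun J => GG A (wt R.e J)) where
  tate := BridgeAux.tate R
  empty := by
    have e : wt R.e ∅ = 0 := by rw [wt_eq_sum, Finset.sum_empty]
    show GG A (wt R.e ∅)
    rw [e]
    exact GG_zero
  pair_N J x y hJ hx hy hxy h := by
    have hc : Γ.c • x ≠ Γ.c • y := fun e => hxy (R.X.smul_inj e)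
    have h1 : Γ.c • y ≠ Γ.c • Γ.c • x := by
      rw [R.X.conj_conj]
      intro e
      exact hJ y hy (e ▸ hx)
    have h2 : R.X.a (Γ.c • x) + R.X.a (Γ.c • y) = 0 := by
      rw [R.X.a_conj, R.X.a_conj, ← neg_add, h, neg_zero]
    refine (step R hc h1 h2 ?_).1
    have e1 := wt_erase R.e hx
    have e2 := wt_erase R.e (J := J.erase x) (Finset.mem_erase.2 ⟨hxy.symm, hy⟩)
    rw [w_conj, w_conj, ← e1, ← e2]
    abel
  pair_G J x y hJ hx hy hxy h := by
    have h1 : y ≠ Γ.c • x := fun e => hJ x hx (e ▸ hy)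
    refine (step R hxy h1 h ?_).2
    have e1 := wt_erase R.e hx
    have e2 := wt_erase R.e (J := J.erase x) (Finset.mem_erase.2 ⟨hxy.symm, hy⟩)
    rw [← e1, ← e2]
    abel
  move_N J x y hJ hx hy hcy h := by
    have h0 : Γ.c • x ≠ y := by
      intro e
      apply hcy
      rw [← e, R.X.conj_conj]
      exact hx
    have h1 : y ≠ Γ.c • Γ.c • x := by
      rw [R.X.conj_conj]
      intro e
      exact hy (e ▸ hx)
    have h2 : R.X.a (Γ.c • x) + R.X.a y = 0 := by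
      rw [R.X.a_conj, h, neg_add_cancel]
    refine (step R h0 h1 h2 ?_).1
    have e1 := wt_erase R.e hx
    have e2 := wt_insert R.e (J := J.erase x) (x := y) (fun e => hy (Finset.mem_of_mem_erase e))
    rw [e2, w_conj, ← e1]
    abel
  move_G J x y hJ hx hy hcy h := by
    have h0 : x ≠ Γ.c • y := fun e => hcy (e ▸ hx)
    have h1 : Γ.c • y ≠ Γ.c • x := fun e => hy (R.X.smul_inj e ▸ hx)
    have h2 : R.X.a x + R.X.a (Γ.c • y) = 0 := by
      rw [R.X.a_conj, h, add_neg_cancel]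
    refine (step R h0 h1 h2 ?_).2
    have e1 := wt_erase R.e hx
    have e2 := wt_insert R.e (J := J.erase x) (x := y) (fun e => hy (Finset.mem_of_mem_erase e))
    rw [e2, w_conj, ← e1]
    abel
  rankTwo := BridgeAux.rankTwo R

theorem exists_set (R : Arith Γ A) {η : Fin A.g → ℤ} (hη : ∀ s, η s = -1 ∨ η s = 0 ∨ η s = 1) :
    ∃ J, R.X.Free J ∧ wt R.e J = η := by
  refine ⟨Finset.univ.filter fun x => ((R.e x).2 = true ∧ η (R.e x).1 = 1) ∨
    ((R.e x).2 = false ∧ η (R.e x).1 = -1), ?_, ?_⟩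
  · intro x hx hcx
    rw [Finset.mem_filter] at hx hcx
    have h1 := hx.2
    have h2 := hcx.2
    rw [R.e_conj] at h2
    rcases h1 with ⟨h3, h4⟩ | ⟨h3, h4⟩ <;> rcases h2 with ⟨h5, h6⟩ | ⟨h5, h6⟩ <;> simp_all
  · funext s
    simp only [wt, Finset.mem_filter, Finset.mem_univ, true_and, Equiv.apply_symm_apply]
    rcases hη s with h | h | h <;> simp [h]

end Pc0b458X
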