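import Pool.Agent.Lib.Pc0b458X.Sign

/-!
# The character on the relations, if all slopes are proportional

PROOF. If `X.a x = 0` for all `x` then a relation `n` is zero (`n v ≠ 0` gives `v = X.a y = 0`, and
`n 0 = 0` by `IsRelation.zero`); take `χ = 1`. Otherwise let `v₀ = X.a x₀ ≠ 0`. Since the span of
`Set.range X.a` has dimension at most one, every `X.a y` is `μ • v₀` for some `μ : ℚ`
(`finrank_le_one_iff` or `exists_smul_eq_of_finrank_eq_one`...). In particular
`rho g v₀ = X.a (g • x₀) = λ g • v₀`. The norms agree (`Pc0b458F.N_rho`, `N v = ∑ h, v h * v h`), so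
`λ g ^ 2 = 1` and `λ g = 1` or `-1`. Let `χ g = 1` if `rho g v₀ = v₀` and `-1` otherwise, so
`rho g v₀ = (χ g : ℤ) • v₀` and `χ` is a homomorphism (`rho_mul`, `v₀ ≠ 0`). Then
`rho g (X.a y) = μ • rho g v₀ = χ g • X.a y` for all `y`. Let `n` be a relation. For `v = X.a y` we get
`n (rho g v) = n (χ g • v) = χ g * n v` (`n (-v) = -n v`). If `v` is not of the form `X.a y` then
`rho g v` is not either (`v = rho g⁻¹ (rho g v)`, `X.a_smul`), and both sides are zero.
-/

namespace Pc0b458X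

open Pc0b458F (CMDatum rho)

variable {Γ : Galois} {X : CMDatum Γ.G Γ.D Γ.c}

theorem char_of_rank_one (h : rank X ≤ 1) :
    ∃ χ : Γ.G →* ℤˣ, ∀ n, IsRelation X n → ∀ g v, n (rho g v) = χ g * n v := by
  classical
  by_cases hall : ∀ x, X.a x = 0
  · refine ⟨1, fun n hn g v => ?_⟩
    have h1 : ∀ w, n w = 0 := by
      intro w
      by_contra hw
      obtain ⟨y, hy⟩ := hn.2.1 w hw
      rw [← hy, hall y, hn.zero] at hw
      exact hw rfl
    rw [h1, h1, mul_zero]
  push Not at hall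
  obtain ⟨x₀, hx₀⟩ := hall
  obtain ⟨u, hu⟩ := finrank_le_one_iff.1 h
  have hmem : ∀ y, X.a y ∈ Submodule.span ℚ (Set.range X.a) := fun y =>
    Submodule.subset_span ⟨y, rfl⟩
  have hcoef : ∀ y, ∃ c : ℚ, X.a y = c • (u : Γ.G → ℚ) := by
    intro y
    obtain ⟨c, hc⟩ := hu ⟨X.a y, hmem y⟩
    refine ⟨c, ?_⟩
    have := congrArg Subtype.val hc
    exact this.symm
  obtain ⟨c₀, hc₀⟩ := hcoef x₀
  have hc₀' : c₀ ≠ 0 := by
    rintro rfl
    rw [zero_smul] at hc₀
    exact hx₀ hc₀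
  have hprop : ∀ y, ∃ c : ℚ, X.a y = c • X.a x₀ := by
    intro y
    obtain ⟨c, hc⟩ := hcoef y
    refine ⟨c / c₀, ?_⟩
    rw [hc, hc₀, smul_smul, div_mul_cancel₀ _ hc₀']
  have hsign : ∀ g, ∃ w : ℤˣ, rho g (X.a x₀) = (w : ℤ) • X.a x₀ := by
    intro g
    obtain ⟨c, hc⟩ := hprop (g • x₀)
    rw [X.a_smul] at hc
    have h1 := Pc0b458F.N_rho g (X.a x₀)
    have h2 := Pc0b458F.N_pos hx₀
    have h3 : Pc0b458F.N (c • X.a x₀) = c ^ 2 * Pc0b458F.N (X.a x₀) := by
      unfold Pc0b458F.N Pc0b458F.B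
      rw [Finset.mul_sum]
      refine Finset.sum_congr rfl fun k _ => ?_
      simp only [Pi.smul_apply, smul_eq_mul]
      ring
    rw [hc, h3] at h1
    have h4 : c ^ 2 = 1 := by
      apply mul_right_cancel₀ h2.ne'
      rw [h1, one_mul]
    rcases sq_eq_one_iff.1 h4 with h5 | h5
    · refine ⟨1, ?_⟩
      rw [hc, h5]
      simp
    · refine ⟨-1, ?_⟩
      rw [hc, h5]
      simp
  choose f hf using hsign
  have hinj : ∀ w w' : ℤˣ, (w : ℤ) • X.a x₀ = (w' : ℤ) • X.a x₀ → w = w' := by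
    intro w w' hw
    apply Units.ext
    obtain ⟨k, hk⟩ : ∃ k, X.a x₀ k ≠ 0 := by
      by_contra hcon
      push Not at hcon
      exact hx₀ (funext hcon)
    have h1 := congrFun hw k
    simp only [Pi.smul_apply, zsmul_eq_mul] at h1
    exact_mod_cast mul_right_cancel₀ hk h1
  refine ⟨⟨⟨f, ?_⟩, ?_⟩, ?_⟩
  · apply hinj
    rw [← hf, Pc0b458F.rho_one, Units.val_one, one_smul]
  · intro g k
    apply hinj
    show ((f (g * k) : ℤˣ) : ℤ) • X.a x₀ = ((f g * f k : ℤˣ) : ℤ) • X.a x₀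
    have e1 : rho g (((f k : ℤˣ) : ℤ) • X.a x₀) = ((f k : ℤˣ) : ℤ) • rho g (X.a x₀) := rfl
    rw [← hf, Pc0b458F.rho_mul, hf k, e1, hf g, smul_smul, Units.val_mul, mul_comm]
  · intro n hn g v
    show n (rho g v) = (f g : ℤ) * n v
    by_cases hv : ∃ y, X.a y = v
    · obtain ⟨y, rfl⟩ := hv
      obtain ⟨c, hc⟩ := hprop y
      have h1 : rho g (X.a y) = ((f g : ℤˣ) : ℤ) • X.a y := by
        rw [hc, Pc0b458F.rho_smul, hf, smul_comm]
      rw [h1]
      rcases Int.units_eq_one_or (f g) with h2 | h2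
      · rw [h2, Units.val_one, one_smul, one_mul]
      · rw [h2, Units.val_neg, Units.val_one, neg_one_smul, hn.1, neg_one_mul]
    · have h1 : n v = 0 := by
        by_contra hne
        exact hv (hn.2.1 v hne)
      have h2 : n (rho g v) = 0 := by
        by_contra hne
        obtain ⟨y, hy⟩ := hn.2.1 _ hne
        exact hv ⟨g⁻¹ • y, by rw [X.a_smul, hy, Pc0b458F.rho_inv]⟩
      rw [h1, h2, mul_zero]

end Pc0b458X
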