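import Pool.Agent.Lib.Pc0b458X.Half

/-!
# The character on the relations, if there is at most one relation

PROOF. If all relations are zero take `χ = 1` (`1 * 0`). Otherwise let `m` be a relation with
`m v₀ ≠ 0` for some `v₀`. For `g : Γ.G` the function `v ↦ m (rho g v)` is a relation: `rho_neg`; if
`m (rho g v) ≠ 0` then `rho g v = X.a y` and `v = X.a (g⁻¹ • y)` (`X.a_smul`, `rho_inv`); and the
sum `∑ v ∈ univ.image X.a, m (rho g v) • v` is `rho g⁻¹` of the sum `∑ v ∈ univ.image X.a, m v • v = 0`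
(`rho g` is a bijection of `univ.image X.a`, `rho_sum`, `rho_smul`). By `two_relations` there are
`a, b`, not both zero, with `a * m (rho g v) = b * m v` for all `v`. The sums of the squares over
`univ.image X.a` agree, `∑ m (rho g v) ^ 2 = ∑ m v ^ 2 > 0`, so `a ^ 2 = b ^ 2`, `a ≠ 0` and
`m (rho g v) = m v` for all `v`, or `m (rho g v) = -m v` for all `v`. Define `χ g = 1` in the first case
and `-1` in the second (the cases exclude each other because `m v₀ ≠ 0`); so `m (rho g v) = χ g * m v`,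
and `χ` is a homomorphism (`rho_mul`, evaluate at `v₀`; `Units.ext`). For any relation `n` there
are `a, b`, not both zero, with `a * n v = b * m v`; `a ≠ 0` since `m v₀ ≠ 0`, and
`a * n (rho g v) = b * χ g * m v = χ g * a * n v`.
-/

namespace Pc0b458X

open Pc0b458F (CMDatum rho)

variable {Γ : Galois} {X : CMDatum Γ.G Γ.D Γ.c}

namespace CharRelAux

theorem mem_image_rho [DecidableEq (Γ.G → ℚ)] {g : Γ.G} {v : Γ.G → ℚ} :
    rho g v ∈ Finset.univ.image X.a ↔ v ∈ Finset.univ.image X.a := by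
  constructor
  · intro h
    obtain ⟨x, -, hx⟩ := Finset.mem_image.1 h
    refine Finset.mem_image.2 ⟨g⁻¹ • x, Finset.mem_univ _, ?_⟩
    rw [X.a_smul, hx, Pc0b458F.rho_inv]
  · intro h
    obtain ⟨x, -, hx⟩ := Finset.mem_image.1 h
    exact Finset.mem_image.2 ⟨g • x, Finset.mem_univ _, by rw [X.a_smul, hx]⟩

theorem sum_rho [DecidableEq (Γ.G → ℚ)] {M : Type*} [AddCommMonoid M] (g : Γ.G)
    (f : (Γ.G → ℚ) → M) :
    ∑ v ∈ Finset.univ.image X.a, f (rho g v) = ∑ v ∈ Finset.univ.image X.a, f v := by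
  refine Finset.sum_nbij' (fun v => rho g v) (fun v => rho g⁻¹ v) ?_ ?_ ?_ ?_ ?_
  · intro v hv
    exact mem_image_rho.2 hv
  · intro v hv
    exact mem_image_rho.2 hv
  · intro v _
    exact Pc0b458F.rho_inv g v
  · intro v _
    exact Pc0b458F.rho_inv' g v
  · intro v _
    rfl

theorem rho_zsmul (g : Γ.G) (k : ℤ) (v : Γ.G → ℚ) : rho g (k • v) = k • rho g v := rfl

theorem shift {m : (Γ.G → ℚ) → ℤ} (hm : IsRelation X m) (g : Γ.G) :
    IsRelation X (fun v => m (rho g v)) := by
  classical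
  refine ⟨fun v => ?_, fun v hv => ?_, ?_⟩
  · show m (rho g (-v)) = -m (rho g v)
    rw [Pc0b458F.rho_neg, hm.1]
  · obtain ⟨y, hy⟩ := hm.2.1 _ hv
    have h1 : rho g v ∈ Finset.univ.image X.a := Finset.mem_image.2 ⟨y, Finset.mem_univ y, hy⟩
    obtain ⟨x, -, hx⟩ := Finset.mem_image.1 (mem_image_rho.1 h1)
    exact ⟨x, hx⟩
  · apply Pc0b458F.rho_eq_zero (g := g)
    rw [Pc0b458F.rho_sum]
    have h1 := sum_rho (X := X) g (fun v => m v • v)
    have h2 : ∑ v ∈ Finset.univ.image X.a, m v • v = 0 := by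
      have := hm.2.2
      convert this
    rw [h2] at h1
    rw [← h1]
    refine Finset.sum_congr (by congr!) fun v _ => ?_
    rw [rho_zsmul]

end CharRelAux

open CharRelAux

theorem char_of_relations (h : eigenvalues X ≤ 2 * rank X + 2) :
    ∃ χ : Γ.G →* ℤˣ, ∀ n, IsRelation X n → ∀ g v, n (rho g v) = χ g * n v := by
  classical
  by_cases hall : ∀ n, IsRelation X n → ∀ v, n v = 0
  · refine ⟨1, fun n hn g v => ?_⟩
    rw [hall n hn, hall n hn, mul_zero]
  push Not at hall
  obtain ⟨m, hm, v₀, hv₀⟩ := hall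
  have hsign : ∀ g, ∃ u : ℤˣ, ∀ v, m (rho g v) = u * m v := by
    intro g
    obtain ⟨a, b, hab, he⟩ := two_relations h (shift hm g) hm
    have hsq := sum_rho (X := X) g (fun v => m v ^ 2)
    have hpos : 0 < ∑ v ∈ Finset.univ.image X.a, m v ^ 2 := by
      obtain ⟨y, hy⟩ := hm.2.1 _ hv₀
      refine Finset.sum_pos' (fun v _ => sq_nonneg _) ⟨v₀, ?_, ?_⟩
      · exact Finset.mem_image.2 ⟨y, Finset.mem_univ y, hy⟩
      · positivity
    have h1 : a ^ 2 * ∑ v ∈ Finset.univ.image X.a, m v ^ 2 =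
        b ^ 2 * ∑ v ∈ Finset.univ.image X.a, m v ^ 2 := by
      conv_lhs => rw [← hsq]
      rw [Finset.mul_sum, Finset.mul_sum]
      refine Finset.sum_congr rfl fun v _ => ?_
      rw [← mul_pow, ← mul_pow, he]
    have h2 : a ^ 2 = b ^ 2 := mul_right_cancel₀ hpos.ne' h1
    rcases sq_eq_sq_iff_eq_or_eq_neg.1 h2 with h3 | h3
    · have hb : b ≠ 0 := by
        rintro rfl
        rw [h3] at hab
        simp at hab
      refine ⟨1, fun v => ?_⟩
      have h4 := he v
      rw [h3] at h4
      rw [Units.val_one, one_mul]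
      exact mul_left_cancel₀ hb h4
    · have hb : b ≠ 0 := by
        rintro rfl
        rw [h3] at hab
        simp at hab
      refine ⟨-1, fun v => ?_⟩
      have h4 := he v
      rw [h3] at h4
      rw [Units.val_neg, Units.val_one, neg_one_mul]
      have h5 : b * (-m (rho g v)) = b * m v := by
        rw [← h4]
        ring
      have h6 := mul_left_cancel₀ hb h5
      omega
  choose f hf using hsign
  refine ⟨⟨⟨f, ?_⟩, ?_⟩, ?_⟩
  · apply Units.ext
    apply mul_right_cancel₀ hv₀
    rw [← hf, Pc0b458F.rho_one, Units.val_one, one_mul]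
  · intro g k
    apply Units.ext
    apply mul_right_cancel₀ hv₀
    show ((f (g * k) : ℤˣ) : ℤ) * m v₀ = ((f g * f k : ℤˣ) : ℤ) * m v₀
    rw [← hf, Pc0b458F.rho_mul, hf, hf, Units.val_mul, mul_assoc]
  · intro n hn g v
    show n (rho g v) = (f g : ℤ) * n v
    obtain ⟨a, b, hab, he⟩ := two_relations h hn hm
    have ha : a ≠ 0 := by
      rintro rfl
      have h1 := he v₀
      rw [zero_mul] at h1
      have h2 : b ≠ 0 := by
        rcases hab with h2 | h2
        · exact absurd rfl h2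
        · exact h2
      exact (mul_ne_zero h2 hv₀) h1.symm
    apply mul_left_cancel₀ ha
    rw [he, hf, ← mul_assoc, mul_comm b, mul_assoc, ← he]
    ring

end Pc0b458X
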