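import Pool.Agent.Lib.Pc0b458X.Sign

/-!
# Changing a weight without changing the slopes

PROOF of `moves`. Induction on the number of the elements of `J \ J'` (generalise `J`; `J'` is fixed).
If `J \ J' = ∅` then `J ⊆ J'`, and `J = J'`: for `y ∈ J'` with `X.a y = 0` this is `h0`; for
`v = X.a y ≠ 0` the filter of `J` is contained in the filter of `J'` and they have the same number of
elements, so they are equal and `y ∈ J`. Otherwise let `x ∈ J \ J'`. Then `v = X.a x ≠ 0` by `h0`. The
filters `{z ∈ J, X.a z = v}` and `{z ∈ J', X.a z = v}` have the same number of elements and the first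
contains `x`, the second does not, so there is `y ∈ J'` with `X.a y = v`, `y ∉ J`. And `c • y ∉ J`:
otherwise `X.a x + X.a (c • y) = v - v = 0` (`X.a_conj`), so `x = c • y` by `hT` and
`v = X.a x = -v`, `v = 0`, a contradiction. Put `J₁ = insert y (J.erase x)`. Then `X.Free J₁`
(`c • y ≠ y` by `X.conj_ne`; `c • y ∉ J`; for `z ∈ J`, `c • z = y` gives `c • y = z ∈ J` by
`X.conj_conj`), `hT` holds for `J₁` (`X.a y = X.a x`), `h0` holds (`X.a x = X.a y ≠ 0`), the counts
do not change (for `w = v` one element is removed and one is added; for `w ≠ v` the filters are the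
same), and `J₁ \ J'` is `(J \ J').erase x` (`y ∈ J'`). By induction `N J₁ → N J'` and `Gd J' → Gd J₁`;
use `SS.move_N J x y` and `SS.move_G J x y`.
-/

namespace Pc0b458X

open Pc0b458F (CMDatum rho)

variable {Γ : Galois} {X : CMDatum Γ.G Γ.D Γ.c}

theorem moves {N Gd : Finset X.S → Prop} (SS : SignSystem X N Gd) (J J' : Finset X.S)
    (hJ : X.Free J) (hT : ∀ x ∈ J, ∀ y ∈ J, x ≠ y → X.a x + X.a y ≠ 0)
    (h0 : ∀ x, X.a x = 0 → (x ∈ J ↔ x ∈ J')) (hc : ∀ v, v ≠ 0 → cnt X J v = cnt X J' v) :
    (N J → N J') ∧ (Gd J' → Gd J) := by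
  classical
  have key : ∀ k, ∀ J : Finset X.S, (J \ J').card = k → X.Free J →
      (∀ x ∈ J, ∀ y ∈ J, x ≠ y → X.a x + X.a y ≠ 0) →
      (∀ x, X.a x = 0 → (x ∈ J ↔ x ∈ J')) → (∀ v, v ≠ 0 → cnt X J v = cnt X J' v) →
      (N J → N J') ∧ (Gd J' → Gd J) := by
    intro k
    induction k with
    | zero =>
      intro J hk hJ hT h0 hc
      have hsub : J ⊆ J' := Finset.sdiff_eq_empty_iff_subset.1 (Finset.card_eq_zero.1 hk)
      have heq : J = J' := by
        apply Finset.Subset.antisymm hsub
        intro y hy
        by_cases hv : X.a y = 0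
        · exact (h0 y hv).2 hy
        · have h1 : (J.filter fun x => X.a x = X.a y) = (J'.filter fun x => X.a x = X.a y) := by
            apply Finset.eq_of_subset_of_card_le
            · exact Finset.filter_subset_filter _ hsub
            · have := hc _ hv
              unfold cnt at this
              rw [← this]
          have h2 : y ∈ J'.filter fun x => X.a x = X.a y := Finset.mem_filter.2 ⟨hy, rfl⟩
          rw [← h1] at h2
          exact (Finset.mem_filter.1 h2).1
      rw [heq]
      exact ⟨id, id⟩
    | succ k ih =>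
      intro J hk hJ hT h0 hc
      obtain ⟨x, hx⟩ : (J \ J').Nonempty := by
        rw [← Finset.card_pos, hk]
        omega
      rw [Finset.mem_sdiff] at hx
      have hv : X.a x ≠ 0 := fun h => hx.2 ((h0 x h).1 hx.1)
      obtain ⟨y, hy1, hy2, hy3⟩ : ∃ y ∈ J', X.a y = X.a x ∧ y ∉ J := by
        by_contra hcon
        push Not at hcon
        have h1 : (J'.filter fun z => X.a z = X.a x) ⊂ (J.filter fun z => X.a z = X.a x) := by
          rw [Finset.ssubset_iff_of_subset]
          · refine ⟨x, Finset.mem_filter.2 ⟨hx.1, rfl⟩, fun h => hx.2 (Finset.mem_filter.1 h).1⟩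
          · intro z hz
            rw [Finset.mem_filter] at hz ⊢
            exact ⟨hcon z hz.1 hz.2, hz.2⟩
        have h2 := Finset.card_lt_card h1
        have h3 := hc _ hv
        unfold cnt at h3
        omega
      have hcy : Γ.c • y ∉ J := by
        intro h
        have h1 : X.a x + X.a (Γ.c • y) = 0 := by
          rw [X.a_conj, hy2, add_neg_cancel]
        by_cases e : x = Γ.c • y
        · apply hv
          have h2 : X.a x = -X.a x := by
            conv_lhs => rw [e, X.a_conj, hy2]
          funext g
          have h3 := congrFun h2 g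
          rw [Pi.neg_apply] at h3
          rw [Pi.zero_apply]
          linarith
        · exact hT x hx.1 _ h e h1
      have hxy : x ≠ y := fun e => hy3 (e ▸ hx.1)
      set J₁ := insert y (J.erase x) with hJ₁
      have hm : ∀ z, z ∈ J₁ ↔ z = y ∨ (z ≠ x ∧ z ∈ J) := by
        intro z
        rw [hJ₁, Finset.mem_insert, Finset.mem_erase]
      have f1 : X.Free J₁ := by
        intro z hz hz'
        rw [hm] at hz hz'
        rcases hz with rfl | ⟨_, hz⟩
        · rcases hz' with hz' | ⟨_, hz'⟩
          · exact X.conj_ne _ hz'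
          · exact hcy hz'
        · rcases hz' with hz' | ⟨_, hz'⟩
          · apply hcy
            rw [← hz', X.conj_conj]
            exact hz
          · exact hJ z hz hz'
      have f2 : ∀ z ∈ J₁, ∀ w ∈ J₁, z ≠ w → X.a z + X.a w ≠ 0 := by
        intro z hz w hw hzw
        rw [hm] at hz hw
        rcases hz with rfl | ⟨hz1, hz2⟩ <;> rcases hw with rfl | ⟨hw1, hw2⟩
        · exact absurd rfl hzw
        · rw [hy2]
          exact hT x hx.1 w hw2 hw1.symm
        · rw [hy2]
          exact hT z hz2 x hx.1 hz1
        · exact hT z hz2 w hw2 hzw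
      have f3 : ∀ z, X.a z = 0 → (z ∈ J₁ ↔ z ∈ J') := by
        intro z hz
        rw [hm]
        have e1 : z ≠ y := by
          rintro rfl
          exact hv (hy2.symm.trans hz)
        have e2 : z ≠ x := by
          rintro rfl
          exact hv hz
        rw [← h0 z hz]
        tauto
      have f4 : ∀ v, v ≠ 0 → cnt X J₁ v = cnt X J' v := by
        intro v hv0
        rw [← hc v hv0]
        by_cases e : X.a x = v
        · have e1 : (J₁.filter fun z => X.a z = v) =
              insert y ((J.filter fun z => X.a z = v).erase x) := by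
            ext z
            rw [Finset.mem_filter, hm, Finset.mem_insert, Finset.mem_erase, Finset.mem_filter]
            constructor
            · rintro ⟨h1 | h1, h2⟩
              · exact Or.inl h1
              · exact Or.inr ⟨h1.1, h1.2, h2⟩
            · rintro (h1 | ⟨h1, h2, h3⟩)
              · exact ⟨Or.inl h1, by rw [h1, hy2, e]⟩
              · exact ⟨Or.inr ⟨h1, h2⟩, h3⟩
          unfold cnt
          rw [e1, Finset.card_insert_of_notMem, Finset.card_erase_of_mem]
          · have : 0 < (J.filter fun z => X.a z = v).card :=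
              Finset.card_pos.2 ⟨x, Finset.mem_filter.2 ⟨hx.1, e⟩⟩
            omega
          · exact Finset.mem_filter.2 ⟨hx.1, e⟩
          · intro h
            exact hy3 (Finset.mem_filter.1 (Finset.mem_of_mem_erase h)).1
        · unfold cnt
          congr 1
          ext z
          rw [Finset.mem_filter, hm, Finset.mem_filter]
          constructor
          · rintro ⟨rfl | h1, h2⟩
            · exact absurd (hy2.symm.trans h2) e
            · exact ⟨h1.2, h2⟩
          · rintro ⟨h1, h2⟩
            refine ⟨Or.inr ⟨?_, h1⟩, h2⟩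
            rintro rfl
            exact e h2
      have f5 : (J₁ \ J').card = k := by
        have e1 : J₁ \ J' = (J \ J').erase x := by
          ext z
          rw [Finset.mem_sdiff, hm, Finset.mem_erase, Finset.mem_sdiff]
          constructor
          · rintro ⟨rfl | h1, h2⟩
            · exact absurd hy1 h2
            · exact ⟨h1.1, h1.2, h2⟩
          · rintro ⟨h1, h2, h3⟩
            exact ⟨Or.inr ⟨h1, h2⟩, h3⟩
        rw [e1, Finset.card_erase_of_mem (Finset.mem_sdiff.2 hx), hk]
        rfl
      obtain ⟨i1, i2⟩ := ih J₁ f5 f1 f2 f3 f4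
      exact ⟨fun h => i1 (SS.move_N J x y hJ hx.1 hy3 hcy hy2.symm h),
        fun h => SS.move_G J x y hJ hx.1 hy3 hcy hy2.symm (i2 h)⟩
  exact key _ J rfl hJ hT h0 hc

end Pc0b458X
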