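import Pool.Agent.Lib.Pc0b458X.HStable
import Pool.Agent.Lib.Pc0b458X.Moves

/-!
# All algebraic weights have the right sign
-/

namespace Pc0b458X

open Pc0b458F (CMDatum rho)

variable {Γ : Galois} {X : CMDatum Γ.G Γ.D Γ.c}

namespace CoreAux

theorem cnt_ne_zero {J : Finset X.S} {v : Γ.G → ℚ} : cnt X J v ≠ 0 ↔ ∃ x ∈ J, X.a x = v := by
  classical
  rw [cnt, Finset.card_ne_zero]
  constructor
  · rintro ⟨x, hx⟩
    rw [Finset.mem_filter] at hx
    exact ⟨x, hx⟩
  · rintro ⟨x, hx⟩
    exact ⟨x, Finset.mem_filter.2 hx⟩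

theorem cnt_le (J : Finset X.S) (v : Γ.G → ℚ) : cnt X J v ≤ (X.fib v).card := by
  classical
  refine Finset.card_le_card fun x hx => ?_
  rw [Finset.mem_filter] at hx
  exact X.mem_fib.2 hx.2

open Classical in
theorem sum_cnt (J : Finset X.S) :
    ∑ v ∈ Finset.univ.image X.a, (cnt X J v : ℤ) • v = ∑ x ∈ J, X.a x := by
  rw [← Finset.sum_fiberwise_of_maps_to (s := J) (t := Finset.univ.image X.a) (g := X.a)
    (fun x _ => Finset.mem_image_of_mem _ (Finset.mem_univ x))]
  refine Finset.sum_congr rfl fun v _ => ?_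
  rw [Finset.sum_congr rfl (g := fun _ => v) (fun x hx => (Finset.mem_filter.1 hx).2),
    Finset.sum_const, cnt, natCast_zsmul]

/-- the relation given by `J` -/
noncomputable def rel (J : Finset X.S) (v : Γ.G → ℚ) : ℤ := cnt X J v - cnt X J (-v)

theorem isRelation {J : Finset X.S} (h : ∑ x ∈ J, X.a x = 0) : IsRelation X (rel J) := by
  classical
  refine ⟨fun v => ?_, fun v hv => ?_, ?_⟩
  · simp only [rel, neg_neg]
    ring
  · have h1 : cnt X J v ≠ 0 ∨ cnt X J (-v) ≠ 0 := by
      by_contra hcon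
      push Not at hcon
      apply hv
      simp only [rel, hcon.1, hcon.2]
      simp
    rcases h1 with h1 | h1
    · obtain ⟨x, -, hx⟩ := cnt_ne_zero.1 h1
      exact ⟨x, hx⟩
    · obtain ⟨x, -, hx⟩ := cnt_ne_zero.1 h1
      exact ⟨Γ.c • x, by rw [X.a_conj, hx, neg_neg]⟩
  · have h1 := sum_cnt (X := X) J
    rw [h] at h1
    have h2 : ∑ v ∈ Finset.univ.image X.a, (cnt X J (-v) : ℤ) • v = 0 := by
      have h3 : ∑ v ∈ Finset.univ.image X.a, (cnt X J (-v) : ℤ) • v =
          ∑ v ∈ Finset.univ.image X.a, (cnt X J v : ℤ) • (-v) := by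
        refine Finset.sum_nbij' (fun v => -v) (fun v => -v) ?_ ?_ ?_ ?_ ?_
        · intro v hv
          obtain ⟨x, -, rfl⟩ := Finset.mem_image.1 hv
          exact Finset.mem_image.2 ⟨Γ.c • x, Finset.mem_univ _, X.a_conj x⟩
        · intro v hv
          obtain ⟨x, -, rfl⟩ := Finset.mem_image.1 hv
          exact Finset.mem_image.2 ⟨Γ.c • x, Finset.mem_univ _, X.a_conj x⟩
        · intro v _; exact neg_neg v
        · intro v _; exact neg_neg v
        · intro v _
          rw [neg_neg]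
      rw [h3]
      simp only [smul_neg, Finset.sum_neg_distrib, h1, neg_zero]
    simp only [rel, sub_smul, Finset.sum_sub_distrib]
    rw [h1, h2, sub_zero]

theorem tr_eq {g : Γ.G} {J : Finset X.S} (h : ∀ x ∈ J, g • x ∈ J) : X.tr g J = J := by
  apply Finset.eq_of_subset_of_card_le
  · intro y hy
    obtain ⟨x, hx, rfl⟩ := Finset.mem_image.1 hy
    exact h x hx
  · rw [CMDatum.tr, Finset.card_image_of_injective _ (fun x y e => X.smul_inj e)]

theorem rankTwo_of_stable {χ : Γ.G →* ℤˣ} (hc : χ Γ.c = -1) {J : Finset X.S}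
    (h : ∀ g ∈ χ.ker, ∀ x ∈ J, g • x ∈ J) : X.RankTwo J := by
  intro g
  by_cases hg : g ∈ χ.ker
  · exact Or.inl (tr_eq (h g hg))
  · right
    have h1 : χ g = -1 := by
      rcases Int.units_eq_one_or (χ g) with h2 | h2
      · exact absurd (MonoidHom.mem_ker.2 h2) hg
      · exact h2
    have h2 : g * Γ.c ∈ χ.ker := by
      rw [MonoidHom.mem_ker, map_mul, h1, hc]
      norm_num
    apply Finset.eq_of_subset_of_card_le
    · intro y hy
      obtain ⟨x, hx, rfl⟩ := Finset.mem_image.1 hy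
      refine Finset.mem_image.2 ⟨(g * Γ.c) • x, h _ h2 x hx, ?_⟩
      show Γ.c • (g * Γ.c) • x = g • x
      rw [X.conj_comm, mul_smul, X.conj_conj]
    · rw [CMDatum.tr, CMDatum.tr, Finset.card_image_of_injective _ (fun x y e => X.smul_inj e),
        Finset.card_image_of_injective _ (fun x y e => X.smul_inj e)]

theorem noPairs {N Gd : Finset X.S → Prop} (SS : SignSystem X N Gd) (χ : Γ.G →* ℤˣ)
    (hχ : ∀ n, IsRelation X n → ∀ g v, n (rho g v) = χ g * n v)
    (hd : ∀ n, IsRelation X n → ∀ x, n (X.a x) ≠ 0 → (index X x : ℤ) ∣ n (X.a x))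
    (hu : ∀ x y, X.a x = X.a y → X.a x ≠ 0 → index X x = index X y)
    (hss : χ Γ.c = -1 → ¬ Γ.D ≤ χ.ker → ∀ x, Supersingular X x → ∀ g ∈ χ.ker, g • x = x)
    (J : Finset X.S) (hJ : X.Free J) (hN : N J)
    (hT : ∀ x ∈ J, ∀ y ∈ J, x ≠ y → X.a x + X.a y ≠ 0) : Gd J := by
  classical
  obtain ⟨hev, hsum⟩ := SS.tate J hJ hN
  have hrel := isRelation hsum
  have hone : ∀ K ⊆ J, (∀ x ∈ K, X.a x = 0) → K.card ≤ 1 := by
    intro K hK h0
    rw [Finset.card_le_one]
    intro x hx y hy
    by_contra hxy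
    exact hT x (hK hx) y (hK hy) hxy (by rw [h0 x hx, h0 y hy, add_zero])
  by_cases hall : ∀ x ∈ J, X.a x = 0
  · have h1 := hone J (Finset.Subset.refl J) hall
    have h2 : J.card = 0 := by
      obtain ⟨r, hr⟩ := hev
      omega
    rw [Finset.card_eq_zero.1 h2]
    exact SS.empty
  push Not at hall
  obtain ⟨x₀, hx₀, hne₀⟩ := hall
  have hvv : ∀ v : Γ.G → ℚ, v = -v → v = 0 := by
    intro v hv
    funext g
    have := congrFun hv g
    rw [Pi.neg_apply] at this
    rw [Pi.zero_apply]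
    linarith
  have hneg : ∀ x ∈ J, X.a x ≠ 0 → cnt X J (-X.a x) = 0 := by
    intro x hx h0
    by_contra hcon
    obtain ⟨y, hy, hxy⟩ := cnt_ne_zero.1 hcon
    by_cases e : x = y
    · rw [← e] at hxy
      exact h0 (hvv _ hxy)
    · exact hT x hx y hy e (by rw [hxy, add_neg_cancel])
  have hposJ : ∀ x ∈ J, X.a x ≠ 0 → 0 < rel J (X.a x) := by
    intro x hx h0
    have h1 : cnt X J (X.a x) ≠ 0 := cnt_ne_zero.2 ⟨x, hx, rfl⟩
    simp only [rel, hneg x hx h0]
    have : 0 < cnt X J (X.a x) := Nat.pos_of_ne_zero h1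
    omega
  have hcase : ∀ v, v ≠ 0 → 0 < rel J v → rel J v = cnt X J v := by
    intro v hv h
    have h1 : cnt X J v ≠ 0 := by
      intro h2
      simp only [rel, h2] at h
      omega
    obtain ⟨x, hx, rfl⟩ := cnt_ne_zero.1 h1
    simp only [rel, hneg x hx hv]
    simp
  have hcase' : ∀ v, v ≠ 0 → ¬ 0 < rel J v → cnt X J v = 0 := by
    intro v hv h
    by_contra h1
    obtain ⟨x, hx, rfl⟩ := cnt_ne_zero.1 h1
    exact h (hposJ x hx hv)
  have h00 : rel J 0 = 0 := hrel.zero
  have hc : χ Γ.c = -1 := by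
    have h1 := hχ _ hrel Γ.c (X.a x₀)
    rw [← X.a_smul, X.a_conj, hrel.1] at h1
    have h2 := hposJ x₀ hx₀ hne₀
    rcases Int.units_eq_one_or (χ Γ.c) with h3 | h3
    · rw [h3] at h1
      simp only [Units.val_one, one_mul] at h1
      omega
    · exact h3
  obtain ⟨B, hB1, hB2, hB3⟩ := exists_stable χ (rel J) (hχ _ hrel) (by
      intro v hv
      have hv0 : v ≠ 0 := by rintro rfl; omega
      rw [hcase v hv0 hv]
      exact_mod_cast cnt_le J v) (by
      intro x y hxy h
      refine hu x y hxy ?_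
      intro h0
      rw [h0] at h
      omega) (fun x hx => hd _ hrel x hx.ne')
  have hBne : ∀ x ∈ B, X.a x ≠ 0 := by
    intro x hx h0
    have := hB2 x hx
    rw [h0] at this
    omega
  set J₀ := J.filter fun x => X.a x = 0 with hJ₀
  set J' := B ∪ J₀ with hJ'
  have hmem : ∀ x, x ∈ J' ↔ x ∈ B ∨ (x ∈ J ∧ X.a x = 0) := by
    intro x
    rw [hJ', Finset.mem_union, hJ₀, Finset.mem_filter]
  have h0 : ∀ x, X.a x = 0 → (x ∈ J ↔ x ∈ J') := by
    intro x hx
    rw [hmem]
    constructor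
    · exact fun h => Or.inr ⟨h, hx⟩
    · rintro (h | h)
      · exact absurd hx (hBne x h)
      · exact h.1
  have hcnt : ∀ v, v ≠ 0 → cnt X J v = cnt X J' v := by
    intro v hv
    have h1 : cnt X J' v = cnt X B v := by
      unfold cnt
      congr 1
      ext x
      rw [Finset.mem_filter, Finset.mem_filter, hmem]
      constructor
      · rintro ⟨h2 | h2, h3⟩
        · exact ⟨h2, h3⟩
        · exact absurd (h3.symm.trans h2.2) hv
      · exact fun h2 => ⟨Or.inl h2.1, h2.2⟩
    rw [h1]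
    by_cases h : 0 < rel J v
    · have h2 := hB3 v h
      rw [hcase v hv h] at h2
      exact_mod_cast h2.symm
    · rw [hcase' v hv h]
      symm
      by_contra h2
      obtain ⟨x, hx, rfl⟩ := cnt_ne_zero.1 h2
      exact h (hB2 x hx)
  obtain ⟨m1, m2⟩ := moves SS J J' hJ hT h0 hcnt
  apply m2
  have hNJ' := m1 hN
  have hfree : X.Free J' := by
    intro x hx hcx
    rw [hmem] at hx hcx
    rcases hx with hx | hx
    · have h1 := hB2 x hx
      rcases hcx with hcx | hcx
      · have h2 := hB2 _ hcx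
        rw [X.a_conj, hrel.1] at h2
        omega
      · rw [X.a_conj, neg_eq_zero] at hcx
        exact hBne x hx hcx.2
    · rcases hcx with hcx | hcx
      · apply hBne _ hcx
        rw [X.a_conj, hx.2, neg_zero]
      · exact hJ x hx.1 hcx.1
  refine SS.rankTwo J' hfree (rankTwo_of_stable hc ?_) hNJ'
  intro g hg x hx
  rw [hmem] at hx ⊢
  rcases hx with hx | hx
  · exact Or.inl (hB1 g hg x hx)
  right
  by_cases hD : Γ.D ≤ χ.ker
  · exfalso
    obtain ⟨hev', hsum'⟩ := SS.tate J' hfree hNJ'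
    have hdisj : Disjoint B J₀ := by
      rw [Finset.disjoint_left]
      intro y hy hy'
      rw [hJ₀, Finset.mem_filter] at hy'
      exact hBne y hy hy'.2
    have hcard : J'.card = B.card + J₀.card := by
      rw [hJ', Finset.card_union_of_disjoint hdisj]
    have h1 : J₀.card ≤ 1 := hone J₀ (Finset.filter_subset _ _) fun y hy =>
      (Finset.mem_filter.1 hy).2
    have h2 : 1 ≤ J₀.card := Finset.card_pos.2 ⟨x, Finset.mem_filter.2 hx⟩
    obtain ⟨m, hm⟩ := X.integral B fun d hd y hy => hB1 d (hD hd) y hy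
    have h3 : ∑ y ∈ B, X.a y = 0 := by
      rw [hJ', Finset.sum_union hdisj] at hsum'
      rw [Finset.sum_eq_zero (s := J₀) fun y hy => (Finset.mem_filter.1 hy).2, add_zero] at hsum'
      exact hsum'
    have h4 := congrFun h3 1
    rw [Finset.sum_apply, Pi.zero_apply] at h4
    simp only [CMDatum.a_apply, one_smul, Finset.sum_sub_distrib, Finset.sum_const,
      nsmul_eq_mul, hm] at h4
    have h5 : (B.card : ℤ) = 2 * m := by
      have : (B.card : ℚ) = 2 * m := by linarith
      exact_mod_cast this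
    obtain ⟨r, hr⟩ := hev'
    omega
  · have h1 := hss hc hD x (supersingular_iff.2 hx.2) g hg
    rw [h1]
    exact hx

end CoreAux

theorem good_all {N Gd : Finset X.S → Prop} (SS : SignSystem X N Gd) (χ : Γ.G →* ℤˣ)
    (hχ : ∀ n, IsRelation X n → ∀ g v, n (rho g v) = χ g * n v)
    (hd : ∀ n, IsRelation X n → ∀ x, n (X.a x) ≠ 0 → (index X x : ℤ) ∣ n (X.a x))
    (hu : ∀ x y, X.a x = X.a y → X.a x ≠ 0 → index X x = index X y)
    (hss : χ Γ.c = -1 → ¬ Γ.D ≤ χ.ker → ∀ x, Supersingular X x → ∀ g ∈ χ.ker, g • x = x) :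
    ∀ J, X.Free J → N J → Gd J := by
  have key : ∀ k, ∀ J : Finset X.S, J.card = k → X.Free J → N J → Gd J := by
    intro k
    induction k using Nat.strong_induction_on with
    | _ k ih =>
      intro J hk hJ hN
      by_cases hT : ∃ x ∈ J, ∃ y ∈ J, x ≠ y ∧ X.a x + X.a y = 0
      · obtain ⟨x, hx, y, hy, hxy, h⟩ := hT
        have hJ' : X.Free ((J.erase x).erase y) := fun z hz hz' =>
          hJ z (Finset.mem_of_mem_erase (Finset.mem_of_mem_erase hz))
            (Finset.mem_of_mem_erase (Finset.mem_of_mem_erase hz'))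
        have hlt : ((J.erase x).erase y).card < k := by
          rw [← hk]
          exact lt_of_le_of_lt (Finset.card_le_card (Finset.erase_subset _ _))
            (Finset.card_erase_lt_of_mem hx)
        exact SS.pair_G J x y hJ hx hy hxy h (ih _ hlt _ rfl hJ'
          (SS.pair_N J x y hJ hx hy hxy h hN))
      · push Not at hT
        exact CoreAux.noPairs SS χ hχ hd hu hss J hJ hN hT
  exact fun J => key _ J rfl

end Pc0b458X
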