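import Pool.Agent.Lib.Pc0b458X.Sign

/-!
# The slopes of a datum of rank two

PROOF of `values`. Let `V` be the span of `Set.range X.a`, of dimension at most two, and `ev : V → ℚ`
the evaluation at `1`; it is not zero, since `X.a (g • x) 1 = X.a x g` and `X.a x ≠ 0`. Let `K` be the
kernel of `ev`; it has dimension at most one. `V` is stable under `rho g` (`X.a_smul`). For `d ∈ D` and
`v ∈ V` we have `rho d v 1 = v d = v 1` (`X.a_dec` for the generators; both sides are linear). So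
`rho d` maps `K` to `K` and `X.a (d • x) - X.a x ∈ K`.
Claim: for every `x` there are `x'` such that every `d • x`, `d ∈ D`, is `x` or `x'`. If `K = 0` then
`X.a (d • x) = X.a x` and `d • x = x` by `hinj`. Otherwise `K` is spanned by `u ≠ 0`, and
`rho d u = ε • u` with `ε = 1` or `-1` (`ε ^ 2 = 1` by `Pc0b458F.N_rho`, `N_pos`). Let
`X.a (d • x) = X.a x + t • u`. If `ε = 1` then `rho d` applied `m` times to `X.a x` gives
`X.a x + (m * t) • u`, and with `m` the order of `d` this is `X.a x`, so `t = 0` and `d • x = x`. If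
`rho d u = -u` and `rho d' u = -u` then `rho (d⁻¹ * d') u = u`, so `(d⁻¹ * d') • x = x` and
`d' • x = d • x`. So take `x' = d • x` for some `d ∈ D` with `rho d u = -u`, if there is one, and
`x' = x` otherwise.
Let `T` be the set of the `d • x`, `d ∈ D` (a filter of `univ`). It is stable under `D`, it has one or
two elements, and all have the slope `X.s x` (`X.s_dec`). By `X.integral`, `T.card * X.s x` is an
integer, so `2 * X.s x` is an integer, and `0 ≤ X.s x ≤ 1` (`X.s_nonneg`, `X.s_le_one`). So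
`X.s x` is `0`, `1/2` or `1`, and `X.a x 1 = X.s x - 1/2`.
-/

namespace Pc0b458X

open Pc0b458F (CMDatum rho)

variable {Γ : Galois} {X : CMDatum Γ.G Γ.D Γ.c}

namespace DOrbAux

open Pc0b458F

/-- a vector moved by a fixed vector is not moved -/
lemma fixed {G : Type} [Group G] [Fintype G] {d : G} {v w : G → ℚ} (h1 : rho d v = v + w)
    (h2 : rho d w = w) : w = 0 := by
  have h3 := B_rho d v w
  rw [h1, h2] at h3
  have h4 : B (v + w) w = B v w + N w := by
    unfold N B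
    rw [← Finset.sum_add_distrib]
    refine Finset.sum_congr rfl fun g _ => ?_
    rw [Pi.add_apply]
    ring
  rw [h4] at h3
  exact N_eq_zero (by linarith)

lemma sign {G : Type} [Group G] [Fintype G] {d : G} {u : G → ℚ} (h : ∃ ε : ℚ, rho d u = ε • u) :
    rho d u = u ∨ rho d u = -u := by
  obtain ⟨ε, hε⟩ := h
  have h1 := N_rho d u
  rw [hε] at h1
  have h2 : N (ε • u) = ε ^ 2 * N u := by
    unfold N B
    rw [Finset.mul_sum]
    refine Finset.sum_congr rfl fun g _ => ?_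
    rw [Pi.smul_apply, smul_eq_mul]
    ring
  rw [h2] at h1
  by_cases h0 : u = 0
  · left
    rw [h0, rho_zero]
  · have h3 := N_pos h0
    have h4 : ε ^ 2 = 1 := by
      have h5 : (ε ^ 2 - 1) * N u = 0 := by linarith
      rcases mul_eq_zero.1 h5 with h6 | h6
      · linarith
      · linarith
    have h5 : (ε - 1) * (ε + 1) = 0 := by linarith
    rcases mul_eq_zero.1 h5 with h6 | h6
    · left
      rw [hε, show ε = 1 by linarith, one_smul]
    · right
      rw [hε, show ε = -1 by linarith, neg_one_smul]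

/-- the span of the slopes -/
def V (X : CMDatum Γ.G Γ.D Γ.c) : Submodule ℚ (Γ.G → ℚ) := Submodule.span ℚ (Set.range X.a)

/-- the part vanishing at one -/
def K (X : CMDatum Γ.G Γ.D Γ.c) : Submodule ℚ (Γ.G → ℚ) :=
  V X ⊓ LinearMap.ker (LinearMap.proj (R := ℚ) (φ := fun _ : Γ.G => ℚ) 1)

lemma mem_K {w : Γ.G → ℚ} : w ∈ K X ↔ w ∈ V X ∧ w 1 = 0 := by
  unfold K
  rw [Submodule.mem_inf, LinearMap.mem_ker]
  rfl

lemma a_mem (x : X.S) : X.a x ∈ V X := Submodule.subset_span ⟨x, rfl⟩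

/-- right translation as a linear map -/
def rhoL (g : Γ.G) : (Γ.G → ℚ) →ₗ[ℚ] (Γ.G → ℚ) where
  toFun := rho g
  map_add' _ _ := rfl
  map_smul' _ _ := rfl

lemma rho_mem (g : Γ.G) {w : Γ.G → ℚ} (hw : w ∈ V X) : rho g w ∈ V X := by
  have h1 : V X ≤ (V X).comap (rhoL g) := by
    unfold V
    rw [Submodule.span_le]
    rintro _ ⟨x, rfl⟩
    change rho g (X.a x) ∈ Submodule.span ℚ (Set.range X.a)
    rw [← CMDatum.a_smul]
    exact Submodule.subset_span ⟨_, rfl⟩
  exact h1 hw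

lemma dec_mem {d : Γ.G} (hd : d ∈ Γ.D) {w : Γ.G → ℚ} (hw : w ∈ V X) : w d = w 1 := by
  have h1 : V X ≤ LinearMap.ker (LinearMap.proj (R := ℚ) (φ := fun _ : Γ.G => ℚ) d -
      LinearMap.proj (R := ℚ) (φ := fun _ : Γ.G => ℚ) 1) := by
    unfold V
    rw [Submodule.span_le]
    rintro _ ⟨x, rfl⟩
    rw [SetLike.mem_coe, LinearMap.mem_ker, LinearMap.sub_apply]
    change X.a x d - X.a x 1 = 0
    have h2 := X.a_dec x hd 1
    rw [mul_one] at h2
    rw [h2, sub_self]
  have h2 := h1 hw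
  rw [LinearMap.mem_ker, LinearMap.sub_apply] at h2
  change w d - w 1 = 0 at h2
  linarith

lemma rho_K {d : Γ.G} (hd : d ∈ Γ.D) {w : Γ.G → ℚ} (hw : w ∈ K X) : rho d w ∈ K X := by
  rw [mem_K] at hw ⊢
  refine ⟨rho_mem d hw.1, ?_⟩
  rw [rho_apply, one_mul, dec_mem hd hw.1, hw.2]

lemma diff_K {d : Γ.G} (hd : d ∈ Γ.D) (x : X.S) : X.a (d • x) - X.a x ∈ K X := by
  rw [mem_K]
  refine ⟨Submodule.sub_mem _ (a_mem _) (a_mem _), ?_⟩
  rw [Pi.sub_apply, CMDatum.a_smul, rho_apply, one_mul, dec_mem hd (a_mem x), sub_self]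

lemma K_line (h0 : ∀ x, X.a x ≠ 0) (hr : rank X ≤ 2) (x : X.S) :
    ∃ u ∈ K X, ∀ w ∈ K X, ∃ t : ℚ, w = t • u := by
  have hlt : K X < V X := by
    refine lt_of_le_of_ne inf_le_left fun e => ?_
    have h1 : ∃ g, X.a x g ≠ 0 := by
      by_contra hc
      push Not at hc
      exact h0 x (funext hc)
    obtain ⟨g, hg⟩ := h1
    have h2 : X.a (g • x) ∈ K X := by
      rw [e]
      exact a_mem _
    rw [mem_K, CMDatum.a_smul, rho_apply, one_mul] at h2
    exact hg h2.2
  have h2 := Submodule.finrank_lt_finrank_of_lt hlt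
  have h3 : Module.finrank ℚ (V X) ≤ 2 := hr
  have h4 : Module.finrank ℚ (K X) ≤ 1 := by omega
  rw [finrank_le_one_iff] at h4
  obtain ⟨u, hu⟩ := h4
  refine ⟨u, u.2, fun w hw => ?_⟩
  obtain ⟨t, ht⟩ := hu ⟨w, hw⟩
  refine ⟨t, ?_⟩
  have := congrArg Subtype.val ht
  exact this.symm

lemma two (hinj : Function.Injective X.a) (h0 : ∀ x, X.a x ≠ 0) (hr : rank X ≤ 2) (x : X.S) :
    ∃ x' : X.S, ∀ d ∈ Γ.D, d • x = x ∨ d • x = x' := by
  obtain ⟨u, huK, hu⟩ := K_line h0 hr x
  have hfix : ∀ d ∈ Γ.D, rho d u = u → d • x = x := by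
    intro d hd h1
    obtain ⟨t, ht⟩ := hu _ (diff_K hd x)
    have h2 : rho d (X.a x) = X.a x + t • u := by
      rw [← ht, CMDatum.a_smul]
      abel
    have h3 : t • u = 0 := fixed h2 (by rw [rho_smul, h1])
    refine hinj ?_
    rw [CMDatum.a_smul, h2, h3, add_zero]
  have hsign : ∀ d ∈ Γ.D, rho d u = u ∨ rho d u = -u := fun d hd => sign (hu _ (rho_K hd huK))
  by_cases hex : ∃ d ∈ Γ.D, rho d u = -u
  · obtain ⟨d, hd, hdu⟩ := hex
    refine ⟨d • x, fun d' hd' => ?_⟩
    rcases hsign d' hd' with h1 | h1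
    · left
      exact hfix d' hd' h1
    · right
      have h2 : rho d⁻¹ u = -u := by
        have h3 := rho_inv d u
        rw [hdu, rho_neg] at h3
        rw [← h3, neg_neg]
        exact h3.symm ▸ rfl
      have h3 : rho (d⁻¹ * d') u = u := by
        rw [rho_mul, h1, rho_neg, h2, neg_neg]
      have h4 := hfix (d⁻¹ * d') (Γ.D.mul_mem (Γ.D.inv_mem hd) hd') h3
      rw [mul_smul, inv_smul_eq_iff] at h4
      exact h4
  · refine ⟨x, fun d' hd' => ?_⟩
    rcases hsign d' hd' with h1 | h1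
    · left
      exact hfix d' hd' h1
    · exact absurd ⟨d', hd', h1⟩ hex

lemma slope (hinj : Function.Injective X.a) (h0 : ∀ x, X.a x ≠ 0) (hr : rank X ≤ 2) (x : X.S) :
    ∃ m : ℤ, 2 * X.s x = m := by
  classical
  obtain ⟨x', hx'⟩ := two hinj h0 hr x
  set T : Finset X.S := Finset.univ.filter fun y => ∃ d ∈ Γ.D, d • x = y with hT
  have hmem : ∀ y, y ∈ T ↔ ∃ d ∈ Γ.D, d • x = y := by
    intro y
    rw [hT, Finset.mem_filter]
    simp only [Finset.mem_univ, true_and]
  have hsub : T ⊆ {x, x'} := by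
    intro y hy
    obtain ⟨d, hd, rfl⟩ := (hmem y).1 hy
    rw [Finset.mem_insert, Finset.mem_singleton]
    exact hx' d hd
  have hc2 : T.card ≤ 2 := (Finset.card_le_card hsub).trans (Finset.card_le_two)
  have hc1 : 1 ≤ T.card := Finset.card_pos.2 ⟨x, (hmem x).2 ⟨1, Γ.D.one_mem, one_smul _ _⟩⟩
  obtain ⟨m, hm⟩ := X.integral T (by
    intro d hd y hy
    obtain ⟨d', hd', rfl⟩ := (hmem y).1 hy
    exact (hmem _).2 ⟨d * d', Γ.D.mul_mem hd hd', mul_smul _ _ _⟩)
  have hsum : ∑ y ∈ T, X.s y = T.card * X.s x := by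
    rw [Finset.sum_congr rfl (g := fun _ => X.s x), Finset.sum_const, nsmul_eq_mul]
    intro y hy
    obtain ⟨d, hd, rfl⟩ := (hmem y).1 hy
    exact X.s_dec d hd x
  rw [hsum] at hm
  have hcases : T.card = 1 ∨ T.card = 2 := by omega
  rcases hcases with h | h
  · rw [h, Nat.cast_one, one_mul] at hm
    exact ⟨2 * m, by rw [hm]; push_cast; ring⟩
  · rw [h] at hm
    exact ⟨m, by rw [← hm]; push_cast; ring⟩

end DOrbAux

theorem values (hinj : Function.Injective X.a) (h0 : ∀ x, X.a x ≠ 0) (hr : rank X ≤ 2) (x : X.S) :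
    X.a x 1 = 0 ∨ X.a x 1 = 1 / 2 ∨ X.a x 1 = -1 / 2 := by
  obtain ⟨m, hm⟩ := DOrbAux.slope hinj h0 hr x
  have h1 := X.s_nonneg x
  have h2 := X.s_le_one x
  have h3 : X.a x 1 = X.s x - 1 / 2 := by rw [CMDatum.a_apply, one_smul]
  have h4 : (0 : ℚ) ≤ m := by rw [← hm]; linarith
  have h5 : (m : ℚ) ≤ 2 := by rw [← hm]; linarith
  have h6 : 0 ≤ m := by exact_mod_cast h4
  have h7 : m ≤ 2 := by exact_mod_cast h5
  have h8 : m = 0 ∨ m = 1 ∨ m = 2 := by omega
  rcases h8 with h | h | h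
  · right; right
    rw [h] at hm
    push_cast at hm
    rw [h3]
    linarith
  · left
    rw [h] at hm
    push_cast at hm
    rw [h3]
    linarith
  · right; left
    rw [h] at hm
    push_cast at hm
    rw [h3]
    linarith

end Pc0b458X
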