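import Pool.Agent.Lib.Pc0b458X.Sign

/-!
# The exceptional family
-/

namespace Pc0b458X

open Pc0b458F (CMDatum rho)

namespace ExcAux

variable {G : Type} [Group G] {D : Subgroup G} {c : G} (X : CMDatum G D c)

theorem a_smul_apply (k : G) (x : X.S) (g : G) : X.a (k • x) g = X.a x (g * k) := by
  rw [X.a_smul, Pc0b458F.rho_apply]

theorem vals (hv : ∀ x, X.a x 1 = 0 ∨ X.a x 1 = 1 / 2 ∨ X.a x 1 = -1 / 2) (x : X.S) (g : G) :
    X.a x g = 0 ∨ X.a x g = 1 / 2 ∨ X.a x g = -1 / 2 := by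
  have h := hv (g • x)
  rwa [a_smul_apply, one_mul] at h

theorem exists_ne (h0 : ∀ x, X.a x ≠ 0) (x₀ : X.S) (g : G) : ∃ x, X.a x g ≠ 0 := by
  obtain ⟨h, hh⟩ := Function.ne_iff.1 (h0 x₀)
  refine ⟨(g⁻¹ * h) • x₀, ?_⟩
  rw [a_smul_apply, mul_inv_cancel_left]
  exact hh

theorem two_points {V : Submodule ℚ (G → ℚ)} (hV : Module.finrank ℚ V = 2)
    (h1 : ∃ v ∈ V, v 1 ≠ 0) : ∃ g₂ : G, ∀ v ∈ V, v 1 = 0 → v g₂ = 0 → v = 0 := by
  classical
  have hfin : Module.Finite ℚ V := Module.finite_of_finrank_pos (by omega)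
  obtain ⟨v₁, hv₁, hv₁1⟩ := h1
  by_cases hW : ∀ v ∈ V, v 1 = 0 → v = 0
  · exact ⟨1, fun v hv hv1 _ => hW v hv hv1⟩
  push Not at hW
  obtain ⟨u, hu, hu1, hu0⟩ := hW
  obtain ⟨g₂, hg₂⟩ := Function.ne_iff.1 hu0
  rw [Pi.zero_apply] at hg₂
  refine ⟨g₂, fun v hv hv1 hv2 => ?_⟩
  by_contra hv0
  have hli : LinearIndependent ℚ (![⟨v₁, hv₁⟩, ⟨u, hu⟩, ⟨v, hv⟩] : Fin 3 → V) := by
    rw [Fintype.linearIndependent_iff]
    intro t ht
    have ht' : ∀ g, t 0 * v₁ g + t 1 * u g + t 2 * v g = 0 := by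
      intro g
      have := congrArg (fun w : V => (w : G → ℚ) g) ht
      simp only [Fin.sum_univ_three] at this
      exact this
    have e0 : t 0 = 0 := by
      have := ht' 1
      rw [hu1, hv1, mul_zero, mul_zero, add_zero, add_zero] at this
      exact (mul_eq_zero.1 this).resolve_right hv₁1
    have e1 : t 1 = 0 := by
      have := ht' g₂
      rw [e0, hv2, zero_mul, mul_zero, add_zero, zero_add] at this
      exact (mul_eq_zero.1 this).resolve_right hg₂
    have e2 : t 2 = 0 := by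
      obtain ⟨g₃, hg₃⟩ := Function.ne_iff.1 hv0
      have := ht' g₃
      rw [e0, e1, zero_mul, zero_mul, zero_add, zero_add] at this
      exact (mul_eq_zero.1 this).resolve_right hg₃
    intro i
    fin_cases i
    · exact e0
    · exact e1
    · exact e2
  have := hli.fintype_card_le_finrank
  rw [Fintype.card_fin, hV] at this
  omega

end ExcAux

variable {Γ : Galois} {X : CMDatum Γ.G Γ.D Γ.c}

open ExcAux in
theorem exceptional (hcard : Fintype.card X.S = 8) (hinj : Function.Injective X.a)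
    (h0 : ∀ x, X.a x ≠ 0) (hr : rank X = 2)
    (hv : ∀ x, X.a x 1 = 0 ∨ X.a x 1 = 1 / 2 ∨ X.a x 1 = -1 / 2) : Exceptional X := by
  classical
  have hne : Nonempty X.S := Fintype.card_pos_iff.1 (by omega)
  obtain ⟨x₀⟩ := hne
  set V : Submodule ℚ (Γ.G → ℚ) := Submodule.span ℚ (Set.range X.a) with hVdef
  have hmem : ∀ x, X.a x ∈ V := fun x => Submodule.subset_span ⟨x, rfl⟩
  have hV : Module.finrank ℚ V = 2 := hr
  obtain ⟨g₂, hg₂⟩ := two_points hV (by
    obtain ⟨x, hx⟩ := exists_ne X h0 x₀ 1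
    exact ⟨_, hmem x, hx⟩)
  have hval := vals X hv
  -- the map to the pairs of values
  let F : X.S → ℚ × ℚ := fun x => (X.a x 1, X.a x g₂)
  have hF : Function.Injective F := by
    intro x y hxy
    apply hinj
    have h1 : X.a x 1 = X.a y 1 := congrArg Prod.fst hxy
    have h2 : X.a x g₂ = X.a y g₂ := congrArg Prod.snd hxy
    have := hg₂ (X.a x - X.a y) (V.sub_mem (hmem x) (hmem y))
      (by rw [Pi.sub_apply, h1, sub_self]) (by rw [Pi.sub_apply, h2, sub_self])
    exact sub_eq_zero.1 this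
  let T : Finset (ℚ × ℚ) := {(1 / 2, 0), (-1 / 2, 0), (0, 1 / 2), (0, -1 / 2), (1 / 2, 1 / 2),
    (1 / 2, -1 / 2), (-1 / 2, 1 / 2), (-1 / 2, -1 / 2)}
  have hT : T.card ≤ 8 := by
    have h6 : ∀ a b c d e f : ℚ × ℚ, ({a, b, c, d, e, f} : Finset (ℚ × ℚ)).card ≤ 6 :=
      fun _ _ _ _ _ _ => Finset.card_le_six
    exact (Finset.card_insert_le _ _).trans
      (Nat.succ_le_succ ((Finset.card_insert_le _ _).trans (Nat.succ_le_succ (h6 _ _ _ _ _ _))))
  have hsub : Finset.univ.image F ⊆ T := by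
    intro t ht
    obtain ⟨x, -, rfl⟩ := Finset.mem_image.1 ht
    have hx0 : ¬ (X.a x 1 = 0 ∧ X.a x g₂ = 0) := fun h =>
      h0 x (hg₂ _ (hmem x) h.1 h.2)
    simp only [T, F, Finset.mem_insert, Finset.mem_singleton, Prod.mk.injEq]
    rcases hval x 1 with h | h | h <;> rcases hval x g₂ with h' | h' | h' <;>
      rw [h, h'] at hx0 ⊢ <;> simp at hx0 ⊢
  have himg : Finset.univ.image F = T := by
    apply Finset.eq_of_subset_of_card_le hsub
    rw [Finset.card_image_of_injective _ hF, Finset.card_univ, hcard]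
    exact hT
  have hex : ∀ t ∈ T, ∃ x, X.a x 1 = t.1 ∧ X.a x g₂ = t.2 := by
    intro t ht
    rw [← himg] at ht
    obtain ⟨x, -, rfl⟩ := Finset.mem_image.1 ht
    exact ⟨x, rfl, rfl⟩
  obtain ⟨x₁, h11, h12⟩ := hex (1 / 2, 0) (by simp [T])
  obtain ⟨x₂, h21, h22⟩ := hex (0, 1 / 2) (by simp [T])
  obtain ⟨x₃, h31, h32⟩ := hex (1 / 2, 1 / 2) (by simp [T])
  obtain ⟨x₄, h41, h42⟩ := hex (1 / 2, -1 / 2) (by simp [T])
  simp only at h11 h12 h21 h22 h31 h32 h41 h42
  set p : Γ.G → ℚ := (2 : ℚ) • X.a x₁ with hp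
  set q : Γ.G → ℚ := (2 : ℚ) • X.a x₂ with hq
  have hpa : ∀ g, p g = 2 * X.a x₁ g := fun g => rfl
  have hqa : ∀ g, q g = 2 * X.a x₂ g := fun g => rfl
  have hpV : p ∈ V := V.smul_mem _ (hmem _)
  have hqV : q ∈ V := V.smul_mem _ (hmem _)
  have hcomb : ∀ v ∈ V, v = v 1 • p + v g₂ • q := by
    intro v hvV
    rw [← sub_eq_zero]
    apply hg₂
    · exact V.sub_mem hvV (V.add_mem (V.smul_mem _ hpV) (V.smul_mem _ hqV))
    · rw [Pi.sub_apply, Pi.add_apply, Pi.smul_apply, Pi.smul_apply, hpa, hqa, h11, h21]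
      simp
    · rw [Pi.sub_apply, Pi.add_apply, Pi.smul_apply, Pi.smul_apply, hpa, hqa, h12, h22]
      simp
  have h3 : ∀ g, 2 * X.a x₃ g = p g + q g := by
    intro g
    have := congrFun (hcomb _ (hmem x₃)) g
    rw [Pi.add_apply, Pi.smul_apply, Pi.smul_apply, h31, h32, smul_eq_mul, smul_eq_mul] at this
    rw [this]
    ring
  have h4 : ∀ g, 2 * X.a x₄ g = p g - q g := by
    intro g
    have := congrFun (hcomb _ (hmem x₄)) g
    rw [Pi.add_apply, Pi.smul_apply, Pi.smul_apply, h41, h42, smul_eq_mul, smul_eq_mul] at this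
    rw [this]
    ring
  refine ⟨p, q, ?_, ?_, ?_⟩
  · intro g
    have hnz : ¬ (p g = 0 ∧ q g = 0) := by
      rintro ⟨hp0, hq0⟩
      obtain ⟨x, hx⟩ := exists_ne X h0 x₀ g
      apply hx
      rw [hcomb _ (hmem x), Pi.add_apply, Pi.smul_apply, Pi.smul_apply, hp0, hq0]
      simp
    have e3 := h3 g
    have e4 := h4 g
    rw [hpa, hqa] at *
    rcases hval x₁ g with h | h | h <;> rcases hval x₂ g with h' | h' | h' <;>
      rcases hval x₃ g with h'' | h'' | h'' <;> rcases hval x₄ g with h''' | h''' | h''' <;>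
      rw [h, h', h''] at e3 <;> rw [h, h', h'''] at e4 <;> rw [h, h'] at hnz ⊢ <;>
      first
      | (exfalso; norm_num at e3; done)
      | (exfalso; norm_num at e4; done)
      | (exfalso; norm_num at hnz; done)
      | norm_num
  · refine ⟨g₂, ?_⟩
    have hw : rho g₂ p = (2 : ℚ) • X.a (g₂ • x₁) := by
      rw [hp, Pc0b458F.rho_smul, X.a_smul]
    have hwV : rho g₂ p ∈ V := by
      rw [hw]
      exact V.smul_mem _ (hmem _)
    have h1 : rho g₂ p 1 = 0 := by
      rw [Pc0b458F.rho_apply, one_mul, hpa, h12, mul_zero]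
    have h2 : rho g₂ p = rho g₂ p g₂ • q := by
      have := hcomb _ hwV
      rw [h1, zero_smul, zero_add] at this
      exact this
    have h5 : rho g₂ p g₂ = 2 * X.a (g₂ • x₁) g₂ := by
      rw [hw, Pi.smul_apply, smul_eq_mul]
    rcases hval (g₂ • x₁) g₂ with h | h | h
    · exfalso
      rw [h5, h, mul_zero, zero_smul] at h2
      have h6 := congrFun (Pc0b458F.rho_eq_zero h2) 1
      rw [hpa, h11, Pi.zero_apply] at h6
      norm_num at h6
    · left
      rw [h2, h5, h]
      norm_num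
    · right
      rw [h2, h5, h]
      norm_num
  · apply Multiset.eq_of_le_of_card_le
    · rw [Multiset.le_iff_subset]
      · intro v hvm
        rw [CMDatum.slopes, Multiset.mem_map] at hvm
        obtain ⟨x, -, rfl⟩ := hvm
        have hfn : X.fn x = fun g => 1 / 2 + X.a x g := by
          funext g
          rw [X.a_apply]
          show X.s (g • x) = _
          ring
        have hxg : ∀ g, X.a x g = X.a x 1 * p g + X.a x g₂ * q g := by
          intro g
          have := congrFun (hcomb _ (hmem x)) g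
          rw [Pi.add_apply, Pi.smul_apply, Pi.smul_apply, smul_eq_mul, smul_eq_mul] at this
          exact this
        have hx0 : ¬ (X.a x 1 = 0 ∧ X.a x g₂ = 0) := fun h =>
          h0 x (hg₂ _ (hmem x) h.1 h.2)
        have key : ∃ w ∈ ({p, -p, q, -q, p + q, -(p + q), p - q, -(p - q)} :
            Multiset (Γ.G → ℚ)), ∀ g, X.a x g = w g / 2 := by
          rcases hval x 1 with h | h | h <;> rcases hval x g₂ with h' | h' | h' <;>
            rw [h, h'] at hx0 hxg
          · exact absurd ⟨rfl, rfl⟩ hx0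
          · exact ⟨q, by simp, fun g => by rw [hxg]; ring⟩
          · exact ⟨-q, by simp, fun g => by rw [hxg, Pi.neg_apply]; ring⟩
          · exact ⟨p, by simp, fun g => by rw [hxg]; ring⟩
          · exact ⟨p + q, by simp, fun g => by rw [hxg, Pi.add_apply]; ring⟩
          · exact ⟨p - q, by simp, fun g => by rw [hxg, Pi.sub_apply]; ring⟩
          · exact ⟨-p, by simp, fun g => by rw [hxg, Pi.neg_apply]; ring⟩
          · exact ⟨-(p - q), by simp, fun g => by rw [hxg, Pi.neg_apply, Pi.sub_apply]; ring⟩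
          · exact ⟨-(p + q), by simp, fun g => by rw [hxg, Pi.neg_apply, Pi.add_apply]; ring⟩
        obtain ⟨w, hw, hwg⟩ := key
        rw [Multiset.mem_map]
        refine ⟨w, hw, ?_⟩
        rw [hfn]
        funext g
        rw [hwg]
      · rw [CMDatum.slopes]
        apply Multiset.Nodup.map _ Finset.univ.nodup
        intro x y hxy
        apply hinj
        funext g
        rw [X.a_apply, X.a_apply]
        have := congrFun hxy g
        change X.s (g • x) = X.s (g • y) at this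
        rw [this]
    · rw [CMDatum.slopes, Multiset.card_map, Multiset.card_map, Finset.card_val,
        Finset.card_univ, hcard]
      simp

end Pc0b458X
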