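import Pool.Agent.Lib.Pc0b458X.Sign

/-!
# The exceptional family
-/

namespace Pc0b458X

open Pc0b458F (CMDatum rho N B)

variable {Γ : Galois} {X : CMDatum Γ.G Γ.D Γ.c}

namespace FactsAux

theorem mem_slopes {v : Γ.G → ℚ} (h : v ∈ X.slopes) : ∃ x, X.fn x = v := by
  rw [CMDatum.slopes, Multiset.mem_map] at h
  obtain ⟨x, -, hx⟩ := h
  exact ⟨x, hx⟩

theorem card_filter (P : ℚ → Prop) [DecidablePred P] :
    (Finset.univ.filter fun x : X.S => P (X.s x)).card =
      Multiset.countP (fun f : Γ.G → ℚ => P (f 1)) X.slopes := by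
  classical
  rw [CMDatum.slopes, Multiset.countP_map, Finset.card_def, Finset.filter_val]
  congr 1
  refine Multiset.filter_congr fun x _ => ?_
  simp [CMDatum.fn]

end FactsAux

open FactsAux

/-- an exceptional variety is not simple, and its slopes are `0`, `0`, `0`, `1/2`, `1/2`, `1`,
`1`, `1` -/
theorem Exceptional.facts (h : Exceptional X) : (∃ x y : X.S, ∀ g : Γ.G, g • x ≠ y) ∧
    (Finset.univ.filter fun x : X.S => X.s x = 0).card = 3 ∧
    (Finset.univ.filter fun x : X.S => X.s x = 1 / 2).card = 2 := by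
  classical
  obtain ⟨p, q, hpq, -, hs⟩ := h
  refine ⟨?_, ?_, ?_⟩
  · have hmem : ∀ v ∈ ({p, -p, q, -q, p + q, -(p + q), p - q, -(p - q)} :
        Multiset (Γ.G → ℚ)), ∃ x, ∀ g, X.s (g • x) = 1 / 2 + v g / 2 := by
      intro v hv
      obtain ⟨x, hx⟩ := mem_slopes (X := X) (v := fun g => 1 / 2 + v g / 2) (by
        rw [hs]
        exact Multiset.mem_map_of_mem _ hv)
      exact ⟨x, fun g => congrFun hx g⟩
    obtain ⟨x, hx⟩ := hmem p (by simp)
    obtain ⟨y, hy⟩ := hmem q (by simp)
    obtain ⟨z, hz⟩ := hmem (p + q) (by simp)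
    by_contra hcon
    push Not at hcon
    have key : ∀ u w : X.S, N (X.a u) = N (X.a w) := by
      intro u w
      obtain ⟨g, rfl⟩ := hcon u w
      rw [X.a_smul, Pc0b458F.N_rho]
    have e1 := key x z
    have e2 := key y z
    have e3 : N (X.a x) + N (X.a y) = N (X.a z) := by
      unfold N B
      rw [← Finset.sum_add_distrib]
      refine Finset.sum_congr rfl fun g _ => ?_
      simp only [CMDatum.a_apply, hx, hy, hz, Pi.add_apply]
      rcases hpq g with ⟨h1, h2⟩ | ⟨h1, h2⟩ <;> rw [h1] <;> ring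
    have e4 : 0 < N (X.a z) := by
      apply Pc0b458F.N_pos
      intro h0
      have h1 := congrFun h0 1
      rw [CMDatum.a_apply, hz, Pi.add_apply, Pi.zero_apply] at h1
      rcases hpq 1 with ⟨h2, h3 | h3⟩ | ⟨h2, h3 | h3⟩ <;> rw [h2, h3] at h1 <;> norm_num at h1
    linarith
  · rw [card_filter (fun t => t = 0), hs]
    simp only [Multiset.insert_eq_cons, Multiset.map_cons, Multiset.map_singleton]
    rw [← Multiset.cons_zero]
    simp only [Multiset.countP_cons, Multiset.countP_zero, Pi.add_apply, Pi.sub_apply,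
      Pi.neg_apply]
    rcases hpq 1 with ⟨h2, h3 | h3⟩ | ⟨h2, h3 | h3⟩ <;> norm_num [h2, h3]
  · rw [card_filter (fun t => t = 1 / 2), hs]
    simp only [Multiset.insert_eq_cons, Multiset.map_cons, Multiset.map_singleton]
    rw [← Multiset.cons_zero]
    simp only [Multiset.countP_cons, Multiset.countP_zero, Pi.add_apply, Pi.sub_apply,
      Pi.neg_apply]
    rcases hpq 1 with ⟨h2, h3 | h3⟩ | ⟨h2, h3 | h3⟩ <;> norm_num [h2, h3]

end Pc0b458X
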