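import Pool.Agent.Lib.Pc0b458X.Sign

/-!
# Stable subsets with given numbers of elements

PROOF of `exists_stable`. Let `H = χ.ker` and `e x = index X x`. Call a finset `B` good if
(a) `g • x ∈ B` for `g ∈ H`, `x ∈ B`; (b) `0 < n (X.a x)` for `x ∈ B`; (c) `cnt X B v ≤ n v` for all
`v` with `0 < n v`; (d) `e x ∣ cnt X B (X.a x)` for all `x` with `0 < n (X.a x)`. The empty set is good.
Let `B` be a good set with a maximal number of elements (`Finset.exists_max_image` for the finset of
the good sets, a filter of `univ : Finset (Finset X.S)`). Claim: `cnt X B v = n v` if `0 < n v`.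
Otherwise `cnt X B v < n v ≤ (X.fib v).card`, so there is `x ∉ B` with `X.a x = v`. Let `O` be the
set of all `h • x`, `h ∈ H` (`univ.filter fun y => ∃ g ∈ χ.ker, g • x = y`). By (a) it is disjoint from
`B`. The set `B ∪ O` satisfies (a), and (b), since `n (X.a (h • x)) = n (rho h (X.a x)) = n v`
(`X.a_smul`, `hn`, `χ h = 1`).
Fact 1: `cnt X O (X.a (h • x)) = e x` for `h ∈ H`, and `cnt X O w = 0` if `w` is not of the form
`X.a (h • x)`. Proof: an element `y` of the orbit of `x` with `X.a y = v` is `g • x` with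
`rho g v = v`, so `n v = χ g * n v`, `χ g = 1` and `g ∈ H`; hence the elements of `O` with slopes `v`
are the elements of the orbit with slopes `v` (`index_eq_card`). For `h • x`: multiplication by `h` is
a bijection from `{y ∈ O, X.a y = v}` to `{y ∈ O, X.a y = rho h v}`.
Fact 2: `cnt X B (rho h v) = cnt X B v` for `h ∈ H` (multiplication by `h` is a bijection).
(c) for `B ∪ O`: for `w = X.a (h • x) = rho h v` the count is `cnt X B v + e x`. Both `cnt X B v` (by
(d)) and `n v` (by `hd`) are divisible by `e x`, `e x ≥ 1` and `cnt X B v < n v`, so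
`cnt X B v + e x ≤ n v = n w`. For other `w` the count does not change.
(d) for `B ∪ O`: let `0 < n (X.a y)`; if `X.a y = X.a (h • x)` for some `h ∈ H` the count
`cnt X B (X.a y) + e x` is divisible by `e y`, because `e y ∣ cnt X B (X.a y)` and
`e y = e (h • x) = e x` (the first equality is `hu`; the second one: prove `index X (g • x) = index X x`
with the bijection `y ↦ g • y`, or use Fact 1 for `h • x`). For other `y` it does not change.
The set `B ∪ O` is larger than `B` (it contains `x`): a contradiction.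
-/

namespace Pc0b458X

open Pc0b458F (CMDatum rho)

variable {Γ : Galois} {X : CMDatum Γ.G Γ.D Γ.c}

namespace HStableAux

open Classical in
/-- the orbit of `x` under the kernel of the character -/
noncomputable def orb (χ : Γ.G →* ℤˣ) (x : X.S) : Finset X.S :=
  Finset.univ.filter fun y => ∃ g ∈ χ.ker, g • x = y

theorem mem_orb {χ : Γ.G →* ℤˣ} {x y : X.S} : y ∈ orb χ x ↔ ∃ g ∈ χ.ker, g • x = y := by
  unfold orb
  rw [Finset.mem_filter]
  simp

theorem rho_inv_rho (g : Γ.G) (v : Γ.G → ℚ) : rho g⁻¹ (rho g v) = v := by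
  rw [← Pc0b458F.rho_mul, inv_mul_cancel, Pc0b458F.rho_one]

theorem n_ker {χ : Γ.G →* ℤˣ} {n : (Γ.G → ℚ) → ℤ} (hn : ∀ g v, n (rho g v) = χ g * n v)
    {g : Γ.G} (hg : g ∈ χ.ker) (v : Γ.G → ℚ) : n (rho g v) = n v := by
  rw [hn, MonoidHom.mem_ker.1 hg]
  simp

theorem cnt_orb {χ : Γ.G →* ℤˣ} {n : (Γ.G → ℚ) → ℤ} (hn : ∀ g v, n (rho g v) = χ g * n v)
    {x : X.S} (hx : 0 < n (X.a x)) {h : Γ.G} (hh : h ∈ χ.ker) :
    cnt X (orb χ x) (X.a (h • x)) = index X x := by
  classical
  rw [index_eq_card]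
  unfold cnt
  symm
  refine Finset.card_bij (fun y _ => h • y) ?_ ?_ ?_
  · intro y hy
    rw [Finset.mem_filter] at hy
    obtain ⟨-, ⟨g, hg⟩, hy2⟩ := hy
    simp only at hg
    rw [Finset.mem_filter]
    constructor
    · rw [mem_orb]
      refine ⟨h * g, mul_mem hh ?_, by rw [mul_smul, hg]⟩
      rw [MonoidHom.mem_ker]
      have h1 : n (X.a x) = χ g * n (X.a x) := by
        rw [← hn, ← X.a_smul, hg, hy2]
      rcases Int.units_eq_one_or (χ g) with h2 | h2
      · exact h2
      · rw [h2] at h1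
        simp at h1
        omega
    · rw [X.a_smul, X.a_smul, hy2]
  · intro y _ z _ hyz
    exact smul_left_cancel h hyz
  · intro y hy
    rw [Finset.mem_filter] at hy
    obtain ⟨hy1, hy2⟩ := hy
    rw [mem_orb] at hy1
    obtain ⟨g, hg, rfl⟩ := hy1
    refine ⟨h⁻¹ • g • x, ?_, by rw [smul_inv_smul]⟩
    rw [Finset.mem_filter]
    refine ⟨Finset.mem_univ _, ⟨h⁻¹ * g, by simp only [mul_smul]⟩, ?_⟩
    rw [X.a_smul, hy2, X.a_smul, rho_inv_rho]

theorem cnt_orb_zero {χ : Γ.G →* ℤˣ} {x : X.S} {w : Γ.G → ℚ}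
    (hw : ¬ ∃ h ∈ χ.ker, X.a (h • x) = w) : cnt X (orb χ x) w = 0 := by
  classical
  unfold cnt
  rw [Finset.card_eq_zero, Finset.filter_eq_empty_iff]
  intro y hy h
  rw [mem_orb] at hy
  obtain ⟨g, hg, rfl⟩ := hy
  exact hw ⟨g, hg, h⟩

theorem cnt_rho {χ : Γ.G →* ℤˣ} {B : Finset X.S} (ha : ∀ g ∈ χ.ker, ∀ x ∈ B, g • x ∈ B)
    {h : Γ.G} (hh : h ∈ χ.ker) (v : Γ.G → ℚ) : cnt X B (rho h v) = cnt X B v := by
  classical
  unfold cnt
  symm
  refine Finset.card_bij (fun y _ => h • y) ?_ ?_ ?_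
  · intro y hy
    rw [Finset.mem_filter] at hy ⊢
    exact ⟨ha h hh y hy.1, by rw [X.a_smul, hy.2]⟩
  · intro y _ z _ hyz
    exact smul_left_cancel h hyz
  · intro y hy
    rw [Finset.mem_filter] at hy
    refine ⟨h⁻¹ • y, ?_, by rw [smul_inv_smul]⟩
    rw [Finset.mem_filter]
    exact ⟨ha _ (inv_mem hh) y hy.1, by rw [X.a_smul, hy.2, rho_inv_rho]⟩

theorem cnt_union {B O : Finset X.S} (h : Disjoint B O) (v : Γ.G → ℚ) [DecidableEq X.S] :
    cnt X (B ∪ O) v = cnt X B v + cnt X O v := by
  classical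
  unfold cnt
  rw [Finset.filter_union, Finset.card_union_of_disjoint]
  exact h.mono (Finset.filter_subset _ _) (Finset.filter_subset _ _)

/-- good sets -/
def Good (χ : Γ.G →* ℤˣ) (n : (Γ.G → ℚ) → ℤ) (B : Finset X.S) : Prop :=
  (∀ g ∈ χ.ker, ∀ x ∈ B, g • x ∈ B) ∧ (∀ x ∈ B, 0 < n (X.a x)) ∧
    (∀ v, 0 < n v → (cnt X B v : ℤ) ≤ n v) ∧
    ∀ x, 0 < n (X.a x) → index X x ∣ cnt X B (X.a x)

end HStableAux

open HStableAux in
theorem exists_stable (χ : Γ.G →* ℤˣ) (n : (Γ.G → ℚ) → ℤ)
    (hn : ∀ g v, n (rho g v) = χ g * n v)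
    (hcard : ∀ v, 0 < n v → n v ≤ (X.fib v).card)
    (hu : ∀ x y, X.a x = X.a y → 0 < n (X.a x) → index X x = index X y)
    (hd : ∀ x, 0 < n (X.a x) → (index X x : ℤ) ∣ n (X.a x)) :
    ∃ B : Finset X.S, (∀ g ∈ χ.ker, ∀ x ∈ B, g • x ∈ B) ∧ (∀ x ∈ B, 0 < n (X.a x)) ∧
      ∀ v, 0 < n v → (cnt X B v : ℤ) = n v := by
  classical
  have h0 : Good χ n (∅ : Finset X.S) := by
    refine ⟨by simp, by simp, ?_, ?_⟩
    · intro v hv
      simp only [cnt, Finset.filter_empty, Finset.card_empty, Nat.cast_zero]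
      exact hv.le
    · intro x _
      simp [cnt]
  obtain ⟨B, hB, hmax⟩ := Finset.exists_max_image
    ((Finset.univ : Finset (Finset X.S)).filter fun B => Good χ n B) Finset.card
    ⟨∅, by rw [Finset.mem_filter]; exact ⟨Finset.mem_univ _, h0⟩⟩
  rw [Finset.mem_filter] at hB
  obtain ⟨-, ha, hb, hc, hdd⟩ := hB
  refine ⟨B, ha, hb, fun v hv => ?_⟩
  by_contra hne
  have hlt : (cnt X B v : ℤ) < n v := lt_of_le_of_ne (hc v hv) hne
  have hlt2 : cnt X B v < (X.fib v).card := by
    have := hcard v hv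
    omega
  obtain ⟨x, hx1, hx2⟩ : ∃ x, x ∈ X.fib v ∧ x ∉ B := by
    by_contra hcon
    push Not at hcon
    apply absurd hlt2
    rw [not_lt]
    refine Finset.card_le_card fun y hy => ?_
    rw [Finset.mem_filter]
    exact ⟨hcon y hy, X.mem_fib.1 hy⟩
  have hxv : X.a x = v := X.mem_fib.1 hx1
  subst hxv
  set O := orb χ x with hO
  have hdis : Disjoint B O := by
    rw [Finset.disjoint_left]
    intro y hy hyO
    rw [hO, mem_orb] at hyO
    obtain ⟨g, hg, rfl⟩ := hyO
    apply hx2
    have := ha g⁻¹ (inv_mem hg) _ hy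
    rwa [inv_smul_smul] at this
  have hxO : x ∈ O := by
    rw [hO, mem_orb]
    exact ⟨1, one_mem _, one_smul _ _⟩
  have hgood : Good χ n (B ∪ O) := by
    refine ⟨?_, ?_, ?_, ?_⟩
    · intro g hg y hy
      rw [Finset.mem_union] at hy ⊢
      rcases hy with hy | hy
      · exact Or.inl (ha g hg y hy)
      · right
        rw [hO, mem_orb] at hy ⊢
        obtain ⟨k, hk, rfl⟩ := hy
        exact ⟨g * k, mul_mem hg hk, by rw [mul_smul]⟩
    · intro y hy
      rw [Finset.mem_union] at hy
      rcases hy with hy | hy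
      · exact hb y hy
      · rw [hO, mem_orb] at hy
        obtain ⟨k, hk, rfl⟩ := hy
        rw [X.a_smul, n_ker hn hk]
        exact hv
    · intro w hw
      rw [cnt_union hdis]
      by_cases hcase : ∃ h ∈ χ.ker, X.a (h • x) = w
      · obtain ⟨h, hh, rfl⟩ := hcase
        rw [hO, cnt_orb hn hv hh, X.a_smul, cnt_rho ha hh, n_ker hn hh]
        have d1 : (index X x : ℤ) ∣ cnt X B (X.a x) := by exact_mod_cast hdd x hv
        have d2 := hd x hv
        obtain ⟨k1, e1⟩ := d1
        obtain ⟨k2, e2⟩ := d2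
        push_cast
        have h1 : (1 : ℤ) ≤ index X x := by exact_mod_cast one_le_index x
        rw [e1, e2] at hlt
        have h2 : k1 < k2 := lt_of_mul_lt_mul_left hlt (by omega)
        rw [e1, e2]
        have h3 : (index X x : ℤ) * (k1 + 1) ≤ index X x * k2 :=
          mul_le_mul_of_nonneg_left (by omega) (by omega)
        linarith
      · rw [hO, cnt_orb_zero hcase]
        exact hc w hw
    · intro y hy
      rw [cnt_union hdis]
      by_cases hcase : ∃ h ∈ χ.ker, X.a (h • x) = X.a y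
      · obtain ⟨h, hh, he⟩ := hcase
        refine dvd_add (hdd y hy) ?_
        rw [← he, hO, cnt_orb hn hv hh]
        have e1 : index X y = index X (h • x) := hu y (h • x) he.symm hy
        have e2 : index X (h • x) = index X x := by
          rw [index_eq_card, index_eq_card]
          symm
          refine Finset.card_bij (fun z _ => h • z) ?_ ?_ ?_
          · intro z hz
            rw [Finset.mem_filter] at hz ⊢
            obtain ⟨-, ⟨g, hg⟩, hz2⟩ := hz
            simp only at hg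
            refine ⟨Finset.mem_univ _, ⟨h * g * h⁻¹, ?_⟩, by rw [X.a_smul, X.a_smul, hz2]⟩
            simp only
            rw [mul_smul, mul_smul, inv_smul_smul, hg]
          · intro y _ z _ hyz
            exact smul_left_cancel h hyz
          · intro z hz
            rw [Finset.mem_filter] at hz
            obtain ⟨-, ⟨g, hg⟩, hz2⟩ := hz
            simp only at hg
            refine ⟨h⁻¹ • z, ?_, by rw [smul_inv_smul]⟩
            rw [Finset.mem_filter]
            refine ⟨Finset.mem_univ _, ⟨h⁻¹ * g * h, ?_⟩, ?_⟩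
            · simp only
              rw [mul_smul, mul_smul, hg]
            · rw [X.a_smul, hz2, X.a_smul, rho_inv_rho]
        rw [e1, e2]
      · rw [hO, cnt_orb_zero hcase, add_zero]
        exact hdd y hy
  have h1 := hmax (B ∪ O) (by rw [Finset.mem_filter]; exact ⟨Finset.mem_univ _, hgood⟩)
  have h2 : B.card < (B ∪ O).card := by
    apply Finset.card_lt_card
    rw [Finset.ssubset_iff_of_subset Finset.subset_union_left]
    exact ⟨x, Finset.mem_union_right _ hxO, hx2⟩
  omega

end Pc0b458X
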