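import Pool.Agent.Lib.Pc0b458X.Sign

/-!
# Half of the set of the slopes, and the space of relations

PROOF of `exists_half`: let `R ⊆ N` be a subset with a maximal number of elements among the subsets
with `∀ v ∈ R, -v ∉ R` (the empty set is one). If `v ∈ N`, `v ∉ R` and `-v ∉ R` then `insert v R` is
a larger one (`v ≠ -v` since `v ≠ 0`). So `v ∉ R → -v ∈ R`; and `-v ∈ R → v ∉ R` by the property of `R`
for the element `-v`. The number of elements: `v ↦ -v` is a bijection from `R` to `N \ R`.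

PROOF of `two_relations`. Let `N = (univ.image X.a).erase 0` (closed under `v ↦ -v` by `X.a_conj`) and
`R` as in `exists_half`, so `2 * R.card = eigenvalues X ≤ 2 * rank X + 2`. Consider the linear map
`Φ : (R → ℚ) →ₗ[ℚ] (Γ.G → ℚ)`, `f ↦ ∑ v : R, f v • v`. Its range is the span of `R`, and this is the
span of `Set.range X.a` (each `X.a x` is `0` or in `R` or `-X.a x ∈ R`), so it has dimension `rank X`
and the kernel has dimension `R.card - rank X ≤ 1`. A relation `n` satisfies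
`0 = ∑ v ∈ univ.image X.a, n v • v = ∑ v ∈ N, n v • v = 2 • ∑ v ∈ R, n v • v`, because `n (-v) • (-v) =
n v • v`. So the restrictions of `n` and `n'` (cast to `ℚ`) to `R` are in the kernel of `Φ`, hence
linearly dependent: there are rationals `α, β`, not both zero, with `α n v = β n' v` for `v ∈ R`;
multiply by a common denominator to get integers `a, b`. For `v ∉ univ.image X.a` we have
`n v = n' v = 0`, for `v = 0` also, and for `v ∈ N \ R` use `n v = -n (-v)`.
-/

namespace Pc0b458X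

open Pc0b458F (CMDatum rho)

theorem exists_half {G : Type} (N : Finset (G → ℚ)) (hN : ∀ v ∈ N, -v ∈ N) (h0 : 0 ∉ N) :
    ∃ R ⊆ N, (∀ v ∈ N, v ∉ R ↔ -v ∈ R) ∧ 2 * R.card = N.card := by
  classical
  set P : Finset (Finset (G → ℚ)) := N.powerset.filter fun R => ∀ v ∈ R, -v ∉ R with hP
  have hne : P.Nonempty := ⟨∅, by simp [hP]⟩
  obtain ⟨R, hR, hmax⟩ := Finset.exists_max_image P Finset.card hne
  rw [hP, Finset.mem_filter, Finset.mem_powerset] at hR
  have hneg : ∀ v ∈ N, v ≠ -v := by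
    intro v hv h
    have h1 : v = 0 := by
      funext g
      have h2 := congrFun h g
      rw [Pi.neg_apply] at h2
      rw [Pi.zero_apply]
      linarith
    exact h0 (h1 ▸ hv)
  have key : ∀ v ∈ N, v ∉ R ↔ -v ∈ R := by
    intro v hv
    constructor
    · intro h
      by_contra h'
      have h1 : insert v R ∈ P := by
        rw [hP, Finset.mem_filter, Finset.mem_powerset]
        refine ⟨Finset.insert_subset hv hR.1, ?_⟩
        intro w hw hw'
        rw [Finset.mem_insert] at hw hw'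
        rcases hw with rfl | hw
        · rcases hw' with hw' | hw'
          · exact hneg w hv hw'.symm
          · exact h' hw'
        · rcases hw' with hw' | hw'
          · exact h' (by rw [← hw', neg_neg]; exact hw)
          · exact hR.2 w hw hw'
      have h2 := hmax _ h1
      rw [Finset.card_insert_of_notMem h] at h2
      omega
    · intro h h'
      exact hR.2 v h' h
  refine ⟨R, hR.1, key, ?_⟩
  have h1 : R.card = (N \ R).card := by
    refine Finset.card_bij (fun v _ => -v) ?_ ?_ ?_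
    · intro v hv
      rw [Finset.mem_sdiff]
      exact ⟨hN v (hR.1 hv), hR.2 v hv⟩
    · intro v _ w _ h
      exact neg_injective h
    · intro v hv
      rw [Finset.mem_sdiff] at hv
      exact ⟨-v, (key v hv.1).1 hv.2, neg_neg v⟩
  have h2 := Finset.card_sdiff_add_card_eq_card hR.1
  omega

variable {Γ : Galois} {X : CMDatum Γ.G Γ.D Γ.c}

namespace HalfAux

open Classical in
/-- the slopes different from zero -/
noncomputable def NN (X : CMDatum Γ.G Γ.D Γ.c) : Finset (Γ.G → ℚ) := (Finset.univ.image X.a).erase 0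

lemma mem_NN {v : Γ.G → ℚ} : v ∈ NN X ↔ v ≠ 0 ∧ ∃ x, X.a x = v := by
  classical
  unfold NN
  rw [Finset.mem_erase, Finset.mem_image]
  simp

lemma NN_neg : ∀ v ∈ NN X, -v ∈ NN X := by
  intro v hv
  rw [mem_NN] at hv ⊢
  obtain ⟨h0, x, rfl⟩ := hv
  exact ⟨neg_ne_zero.2 h0, Γ.c • x, X.a_conj x⟩

lemma NN_zero : (0 : Γ.G → ℚ) ∉ NN X := fun h => (mem_NN.1 h).1 rfl

lemma card_NN : (NN X).card = eigenvalues X := rfl

/-- the sum over one half -/
lemma half_sum {n : (Γ.G → ℚ) → ℤ} (hn : IsRelation X n) {R : Finset (Γ.G → ℚ)} (hR : R ⊆ NN X)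
    (hR2 : ∀ v ∈ NN X, v ∉ R ↔ -v ∈ R) : ∑ v ∈ R, ((n v : ℤ) : ℚ) • v = 0 := by
  classical
  have h1 := hn.2.2
  have h2 : ∑ v ∈ NN X, n v • v = 0 := by
    rw [← h1]
    unfold NN
    refine (Finset.sum_erase _ ?_)
    rw [smul_zero]
  rw [← Finset.sum_sdiff hR] at h2
  have h3 : ∑ v ∈ NN X \ R, n v • v = ∑ v ∈ R, n v • v := by
    symm
    refine Finset.sum_bij (fun v _ => -v) ?_ ?_ ?_ ?_
    · intro v hv
      rw [Finset.mem_sdiff]
      refine ⟨NN_neg v (hR hv), ?_⟩
      intro h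
      exact (hR2 v (hR hv)).2 h hv
    · intro v _ w _ h
      exact neg_injective h
    · intro v hv
      rw [Finset.mem_sdiff] at hv
      exact ⟨-v, (hR2 v hv.1).1 hv.2, neg_neg v⟩
    · intro v _
      rw [hn.1 v, neg_smul_neg]
  rw [h3] at h2
  have h4 : ∀ v : Γ.G → ℚ, ((n v : ℤ) : ℚ) • v = n v • v := by
    intro v
    rw [Int.cast_smul_eq_zsmul]
  simp only [h4]
  have h5 : (2 : ℚ) • ∑ v ∈ R, n v • v = 0 := by rw [two_smul, h2]
  rcases smul_eq_zero.1 h5 with h6 | h6
  · norm_num at h6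
  · exact h6

lemma span_R {R : Finset (Γ.G → ℚ)} (hR : R ⊆ NN X)
    (hR2 : ∀ v ∈ NN X, v ∉ R ↔ -v ∈ R) :
    Submodule.span ℚ (Set.range fun v : R => (v : Γ.G → ℚ)) = Submodule.span ℚ (Set.range X.a) := by
  refine le_antisymm ?_ ?_
  · rw [Submodule.span_le]
    rintro _ ⟨v, rfl⟩
    obtain ⟨-, x, hx⟩ := mem_NN.1 (hR v.2)
    exact Submodule.subset_span ⟨x, hx⟩
  · rw [Submodule.span_le]
    rintro _ ⟨x, rfl⟩
    by_cases h0 : X.a x = 0
    · rw [h0]
      exact Submodule.zero_mem _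
    · have h1 : X.a x ∈ NN X := mem_NN.2 ⟨h0, x, rfl⟩
      by_cases h2 : X.a x ∈ R
      · exact Submodule.subset_span ⟨⟨X.a x, h2⟩, rfl⟩
      · have h3 := (hR2 _ h1).1 h2
        have h4 : -X.a x ∈ Submodule.span ℚ (Set.range fun v : R => (v : Γ.G → ℚ)) :=
          Submodule.subset_span ⟨⟨-X.a x, h3⟩, rfl⟩
        have h5 := Submodule.neg_mem _ h4
        rwa [neg_neg] at h5

lemma rat_dep {R : Finset (Γ.G → ℚ)} (hR : R ⊆ NN X)
    (hR2 : ∀ v ∈ NN X, v ∉ R ↔ -v ∈ R) (hc : R.card ≤ rank X + 1) {n n' : (Γ.G → ℚ) → ℤ}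
    (hn : IsRelation X n) (hn' : IsRelation X n') :
    ∃ α β : ℚ, (α ≠ 0 ∨ β ≠ 0) ∧ ∀ v ∈ R, α * n v = β * n' v := by
  classical
  set Φ : (R → ℚ) →ₗ[ℚ] (Γ.G → ℚ) := Fintype.linearCombination ℚ (fun v : R => (v : Γ.G → ℚ)) with hΦ
  have hrange : LinearMap.range Φ = Submodule.span ℚ (Set.range X.a) := by
    rw [hΦ, Fintype.range_linearCombination, span_R hR hR2]
  have h1 := LinearMap.finrank_range_add_finrank_ker Φ
  rw [hrange, Module.finrank_fintype_fun_eq_card, Fintype.card_coe] at h1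
  have h2 : Module.finrank ℚ (Submodule.span ℚ (Set.range X.a)) = rank X := rfl
  rw [h2] at h1
  have h3 : Module.finrank ℚ (LinearMap.ker Φ) ≤ 1 := by omega
  rw [finrank_le_one_iff] at h3
  obtain ⟨u, hu⟩ := h3
  have hmem : ∀ m : (Γ.G → ℚ) → ℤ, IsRelation X m →
      (fun v : R => ((m (v : Γ.G → ℚ) : ℤ) : ℚ)) ∈ LinearMap.ker Φ := by
    intro m hm
    rw [LinearMap.mem_ker, hΦ, Fintype.linearCombination_apply]
    have h4 := half_sum hm hR hR2
    rw [← Finset.sum_coe_sort] at h4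
    exact h4
  obtain ⟨c, hc1⟩ := hu ⟨_, hmem n hn⟩
  obtain ⟨c', hc2⟩ := hu ⟨_, hmem n' hn'⟩
  have e1 : ∀ v : R, c * (u : R → ℚ) v = (n v : ℚ) := fun v => congrFun (congrArg Subtype.val hc1) v
  have e2 : ∀ v : R, c' * (u : R → ℚ) v = (n' v : ℚ) := fun v => congrFun (congrArg Subtype.val hc2) v
  by_cases h4 : c = 0 ∧ c' = 0
  · refine ⟨1, 1, Or.inl one_ne_zero, fun v hv => ?_⟩
    rw [← e1 ⟨v, hv⟩, ← e2 ⟨v, hv⟩, h4.1, h4.2]
  · refine ⟨c', c, ?_, fun v hv => ?_⟩
    · by_contra h5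
      push Not at h5
      exact h4 ⟨h5.2, h5.1⟩
    · rw [← e1 ⟨v, hv⟩, ← e2 ⟨v, hv⟩]
      ring

end HalfAux

open HalfAux

theorem eigenvalues_even : Even (eigenvalues X) := by
  obtain ⟨R, -, -, h⟩ := exists_half (NN X) NN_neg NN_zero
  rw [card_NN] at h
  exact ⟨R.card, by omega⟩

theorem two_relations (h : eigenvalues X ≤ 2 * rank X + 2) {n n' : (Γ.G → ℚ) → ℤ}
    (hn : IsRelation X n) (hn' : IsRelation X n') :
    ∃ a b : ℤ, (a ≠ 0 ∨ b ≠ 0) ∧ ∀ v, a * n v = b * n' v := by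
  obtain ⟨R, hR, hR2, hc⟩ := exists_half (NN X) NN_neg NN_zero
  rw [card_NN] at hc
  obtain ⟨α, β, h0, hαβ⟩ := rat_dep hR hR2 (by omega) hn hn'
  have hRa : ∀ v ∈ R, α.num * β.den * n v = β.num * α.den * n' v := by
    intro v hv
    have h1 := hαβ v hv
    have hα : α = α.num / α.den := (Rat.num_div_den α).symm
    have hβ : β = β.num / β.den := (Rat.num_div_den β).symm
    have hα0 : (α.den : ℚ) ≠ 0 := by exact_mod_cast α.den_nz
    have hβ0 : (β.den : ℚ) ≠ 0 := by exact_mod_cast β.den_nz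
    have e1 : (α.num : ℚ) = α * α.den := by
      rw [eq_comm]
      exact Rat.mul_den_eq_num α
    have e2 : (β.num : ℚ) = β * β.den := by
      rw [eq_comm]
      exact Rat.mul_den_eq_num β
    have h2 : ((α.num * β.den * n v : ℤ) : ℚ) = ((β.num * α.den * n' v : ℤ) : ℚ) := by
      push_cast
      rw [e1, e2]
      calc α * (α.den : ℚ) * β.den * n v = (α * n v) * (α.den * β.den) := by ring
        _ = (β * n' v) * (α.den * β.den) := by rw [h1]
        _ = β * β.den * α.den * n' v := by ring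
    exact_mod_cast h2
  refine ⟨α.num * β.den, β.num * α.den, ?_, ?_⟩
  · rcases h0 with h0 | h0
    · left
      exact mul_ne_zero (Rat.num_ne_zero.2 h0) (by exact_mod_cast β.den_nz)
    · right
      exact mul_ne_zero (Rat.num_ne_zero.2 h0) (by exact_mod_cast α.den_nz)
  · intro v
    by_cases hv : v ∈ NN X
    · by_cases hv2 : v ∈ R
      · exact hRa v hv2
      · have h1 := hRa _ ((hR2 v hv).1 hv2)
        rw [hn.1, hn'.1] at h1
        linarith
    · have hz : ∀ m : (Γ.G → ℚ) → ℤ, IsRelation X m → m v = 0 := by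
        intro m hm
        by_contra hm0
        by_cases hv0 : v = 0
        · rw [hv0] at hm0
          exact hm0 hm.zero
        · exact hv (mem_NN.2 ⟨hv0, hm.2.1 v hm0⟩)
      rw [hz n hn, hz n' hn', mul_zero, mul_zero]

end Pc0b458X
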