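import Pool.Agent.Lib.Pc0b458X.Sign

/-!
# The index, first case

`X.m v` is the number of the elements with slopes `v`; `X.half` (file `Pool.Agent.Lib.Pc0b458F.Datum`)
says: `2 * (sum of the multiplicities) + X.m 0 ≤ card` for vectors which are nonzero and pairwise
different up to sign (`NE v w : v ≠ w ∧ v ≠ -w`).

PROOF of `index_one`. Let `v = X.a y`, `v' = rho g v`, `e = index X y`, and assume `e ≠ 1`, so `2 ≤ e ≤
X.m v` (`one_le_index`, `index_le_m`) and `X.m v' = X.m v` (`X.m_rho`). `v ≠ 0` since `n 0 = 0`, and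
`v' ≠ 0`. By `X.half [v, v']`: `2 * (X.m v + X.m v') + X.m 0 ≤ 8`, so `X.m v = X.m v' = 2` and
`X.m 0 = 0`. If `w = X.a z` then `w` is one of `v, -v, v', -v'`: `w ≠ 0` since `X.m 0 = 0`
(`X.m_pos`), and otherwise `X.half [v, v', w]` gives `2 * (2 + 2 + 1) ≤ 8`. So
`univ.image X.a = {v, -v, v', -v'}` (these four are pairwise different: `v ≠ -v` since `v ≠ 0`, ...;
they are in the image by `X.a_conj`, `X.a_smul`), and the relation says
`n v • v + n (-v) • (-v) + n v' • v' + n (-v') • (-v') = 0`, so `n v • v + n v' • v' = 0`. The norms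
(`Pc0b458F.N`, `N_rho`: `N v' = N v > 0`, `N_pos`) give `n v ^ 2 = n v' ^ 2`, so `n v' = n v` or
`n v' = -n v`, and as `n v ≠ 0` this gives `v' = -v` or `v' = v`: contradiction to `hg`.
-/

namespace Pc0b458X

open Pc0b458F (CMDatum rho NE)

variable {Γ : Galois} {X : CMDatum Γ.G Γ.D Γ.c}

theorem index_one (h8 : Fintype.card X.S ≤ 8) {n : (Γ.G → ℚ) → ℤ} (hn : IsRelation X n) {y : X.S}
    (hy : n (X.a y) ≠ 0) {g : Γ.G} (hg : NE (X.a y) (rho g (X.a y))) : index X y = 1 := by
  classical
  by_contra hne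
  have he1 := one_le_index y
  have he2 := index_le_m y
  set v := X.a y with hv
  set v' := rho g v with hv'
  have hv0 : v ≠ 0 := by
    intro h
    rw [h, hn.zero] at hy
    exact hy rfl
  have hv0' : v' ≠ 0 := fun h => hv0 (Pc0b458F.rho_eq_zero h)
  have hm' : X.m v' = X.m v := X.m_rho g v
  have hgg : NE v v' := hg
  have h1 := X.half [v, v'] (by simp [hgg]) (by simp [hv0, hv0'])
  simp only [List.map_cons, List.map_nil, List.sum_cons, List.sum_nil] at h1
  have hm2 : X.m v = 2 := by omega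
  have hm0 : X.m 0 = 0 := by omega
  have hcl : ∀ z, X.a z = v ∨ X.a z = -v ∨ X.a z = v' ∨ X.a z = -v' := by
    intro z
    by_contra hcon
    push Not at hcon
    obtain ⟨c1, c2, c3, c4⟩ := hcon
    have hz0 : X.a z ≠ 0 := by
      intro h
      have := X.m_pos z
      rw [h, hm0] at this
      omega
    have n1 : NE v (X.a z) := ⟨fun e => c1 e.symm, fun e => c2 (by rw [e, neg_neg])⟩
    have n2 : NE v' (X.a z) := ⟨fun e => c3 e.symm, fun e => c4 (by rw [e, neg_neg])⟩
    have h2 := X.half [v, v', X.a z] (by simp [hgg, n1, n2]) (by simp [hv0, hv0', hz0])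
    simp only [List.map_cons, List.map_nil, List.sum_cons, List.sum_nil] at h2
    have := X.m_pos z
    omega
  have hvv : ∀ w : Γ.G → ℚ, w ≠ 0 → w ≠ -w := by
    intro w hw e
    apply hw
    funext k
    have := congrFun e k
    rw [Pi.neg_apply] at this
    rw [Pi.zero_apply]
    linarith
  have himg : Finset.univ.image X.a = {v, -v, v', -v'} := by
    ext w
    rw [Finset.mem_image]
    simp only [Finset.mem_insert, Finset.mem_singleton, Finset.mem_univ, true_and]
    constructor
    · rintro ⟨z, rfl⟩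
      exact hcl z
    · rintro (rfl | rfl | rfl | rfl)
      · exact ⟨y, rfl⟩
      · exact ⟨Γ.c • y, X.a_conj y⟩
      · exact ⟨g • y, X.a_smul g y⟩
      · exact ⟨Γ.c • g • y, by rw [X.a_conj, X.a_smul]⟩
  have hsum := hn.2.2
  have hsum' : ∑ w ∈ ({v, -v, v', -v'} : Finset (Γ.G → ℚ)), n w • w = 0 := by
    rw [← himg]
    convert hsum
  rw [Finset.sum_insert, Finset.sum_insert, Finset.sum_insert, Finset.sum_singleton, hn.1, hn.1]
    at hsum'
  · have h2 : n v • v + n v' • v' = 0 := by
      funext k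
      have := congrFun hsum' k
      simp only [Pi.add_apply, Pi.neg_apply, Pi.zero_apply, zsmul_eq_mul,
        neg_smul, smul_neg] at this ⊢
      linarith
    have hN : Pc0b458F.N v' = Pc0b458F.N v := Pc0b458F.N_rho g v
    have hpos := Pc0b458F.N_pos hv0
    have h3 : ∀ k, (n v : ℚ) * v k = -((n v' : ℚ) * v' k) := by
      intro k
      have := congrFun h2 k
      rw [Pi.add_apply, Pi.smul_apply, Pi.smul_apply, Pi.zero_apply, zsmul_eq_mul,
        zsmul_eq_mul] at this
      linarith
    have h4 : (n v : ℚ) ^ 2 * Pc0b458F.N v = (n v' : ℚ) ^ 2 * Pc0b458F.N v := by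
      conv_rhs => rw [← hN]
      unfold Pc0b458F.N Pc0b458F.B
      rw [Finset.mul_sum, Finset.mul_sum]
      refine Finset.sum_congr rfl fun k _ => ?_
      have := h3 k
      calc (n v : ℚ) ^ 2 * (v k * v k) = ((n v : ℚ) * v k) ^ 2 := by ring
        _ = (-((n v' : ℚ) * v' k)) ^ 2 := by rw [this]
        _ = (n v' : ℚ) ^ 2 * (v' k * v' k) := by ring
    have h5 : (n v : ℚ) ^ 2 = (n v' : ℚ) ^ 2 := mul_right_cancel₀ hpos.ne' h4
    have hnv : (n v : ℚ) ≠ 0 := by exact_mod_cast hy
    rcases sq_eq_sq_iff_eq_or_eq_neg.1 h5 with h6 | h6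
    · apply hgg.2
      funext k
      have h7 := h3 k
      rw [← h6] at h7
      rw [Pi.neg_apply]
      apply mul_left_cancel₀ hnv
      rw [h7]
      ring
    · apply hgg.1
      funext k
      have h7 := h3 k
      have h8 : (n v' : ℚ) = -(n v : ℚ) := by rw [h6, neg_neg]
      rw [h8] at h7
      apply mul_left_cancel₀ hnv
      rw [h7]
      ring
  · rw [Finset.mem_singleton]
    exact hvv v' hv0'
  · rw [Finset.mem_insert, Finset.mem_singleton]
    rintro (e | e)
    · exact hgg.2 (by rw [← e, neg_neg])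
    · exact hgg.1 (neg_injective e)
  · rw [Finset.mem_insert, Finset.mem_insert, Finset.mem_singleton]
    rintro (e | e | e)
    · exact hvv v hv0 e
    · exact hgg.1 e
    · exact hgg.2 e

end Pc0b458X
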