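import Pool.Agent.Lib.Pc0b458X.Sign
import Pool.Agent.Lib.Pc0b458F.Small

/-!
# The index, second case

PROOF of `index_dvd_B`. Let `v = X.a y`, `e = index X y`; `v ≠ 0` since `n 0 = 0`. By `hg`
`v g = v 1` or `v g = -v 1` for all `g` (`rho g v 1 = v g`), so `v 1 ≠ 0`. Let `T` be the set of the
elements `z` of the orbit of `y` with `X.a z = v`; it has `e` elements (`index_eq_card`). `T` is
stable under `D`: for `d ∈ D`, `z ∈ T`, `X.a (d • z) = rho d v` is `v` or `-v`, and its value at `1` is
`v d = v 1` (`X.a_dec`), so it is `v`. By `X.integral`, `∑ z ∈ T, X.s z = e * (v 1 + 1/2)` is an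
integer (`X.a_apply` with `g = 1`). And `|v 1| ≤ 1/2` (`X.a_abs`).
If `|v 1| = 1/2`: `X.a y h = ± 1/2` for all `h`, so `X.s (h • y)` is `0` or `1` for all `h`; by `X.split`
every `g • y` with `X.a (g • y) = X.a y` is equal to `y`, so `T = {y}` and `e = 1`: done. So let
`|v 1| < 1/2`; then `v 1 + 1/2` is in the open interval `(0, 1)`, it is not `1/2`, and
`e * (v 1 + 1/2)` is an integer, so `3 ≤ e` (`e = 1`: no integer; `e = 2`: the integer would be `1` and
`v 1 = 0`).
The number `X.m 0`, the image: `X.half [v]` gives `2 * X.m v + X.m 0 ≤ 8`, `e ≤ X.m v`.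
The relation. Call (R) the following: if all `X.a z` are in `{v, -v, w, -w}` or zero, where `w ≠ 0`,
`NE v w`, `w` in the image, then `n v • v + n w • w = 0`; if all `X.a z` are in `{v, -v}` or zero then
`n v • v = 0`, which contradicts `n v ≠ 0`, `v ≠ 0`. (`∑ u ∈ univ.image X.a, n u • u = 0`, the term of
`0` vanishes, `n (-u) • (-u) = n u • u`; the image without `0` is `{v, -v, w, -w}` or `{v, -v}`.)
So there is `z` with `w = X.a z ≠ 0`, `NE v w`. By `X.half [v, w]`:
`2 * (X.m v + X.m w) + X.m 0 ≤ 8`, so `X.m v = 3 = e`, `X.m w = 1`, `X.m 0 = 0`; and there is no third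
class (`X.half [v, w, u]`). By (R) `n v • v + n w • w = 0`, in particular `n v * v 1 + n w * w 1 = 0`.
Values: `3 * (v 1 + 1/2)` is an integer in the open interval `(0, 3)`, so `v 1 = 1/6` or `-1/6`.
`rho g w` is `w` or `-w` for every `g`: it is `X.a (g • z)`, it is not `v` or `-v` because
`X.m (rho g w) = X.m w = 1` (`X.m_rho`, `X.m_neg`) and `X.m v = 3`. So `w g = ± w 1`, and `w 1 ≠ 0`. As
before `rho d w = w` for `d ∈ D`, so `d • z = z` by `X.eq_of_m`, the set `{z}` is stable under `D`,
`X.s z = w 1 + 1/2` is an integer, `|w 1| ≤ 1/2`, hence `w 1 = 1/2` or `-1/2`.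
So `n v = ± 3 * n w`, and `3 ∣ n v`.
-/

namespace Pc0b458X

open Pc0b458F (CMDatum rho NE)

variable {Γ : Galois} {X : CMDatum Γ.G Γ.D Γ.c}

namespace IndexBAux

theorem ne_neg {v : Γ.G → ℚ} (h : v ≠ 0) : v ≠ -v := by
  intro e
  apply h
  funext g
  have := congrFun e g
  rw [Pi.neg_apply] at this
  rw [Pi.zero_apply]
  linarith

/-- a relation, evaluated at `1` -/
theorem eval {n : (Γ.G → ℚ) → ℤ} (hn : IsRelation X n) [DecidableEq (Γ.G → ℚ)] :
    ∑ v ∈ Finset.univ.image X.a, (n v : ℚ) * v 1 = 0 := by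
  have h := congrFun hn.2.2 1
  rw [Finset.sum_apply, Pi.zero_apply] at h
  rw [← h]
  refine Finset.sum_congr ?_ fun v _ => ?_
  · ext w
    simp
  · rw [Pi.smul_apply, zsmul_eq_mul]

theorem sum_sub {n : (Γ.G → ℚ) → ℤ} (hn : IsRelation X n) [DecidableEq (Γ.G → ℚ)]
    (T : Finset (Γ.G → ℚ)) (hT : ∀ u ∈ T, ∃ z, X.a z = u) (hz : ∀ z, X.a z = 0 ∨ X.a z ∈ T) :
    ∑ v ∈ T, (n v : ℚ) * v 1 = 0 := by
  rw [← eval hn]
  apply Finset.sum_subset
  · intro u hu
    obtain ⟨z, rfl⟩ := hT u hu
    exact Finset.mem_image_of_mem _ (Finset.mem_univ z)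
  · intro u hu hu'
    obtain ⟨z, -, rfl⟩ := Finset.mem_image.1 hu
    rcases hz z with h | h
    · rw [h, Pi.zero_apply, mul_zero]
    · exact absurd h hu'

theorem rel1 {n : (Γ.G → ℚ) → ℤ} (hn : IsRelation X n) {y : X.S} (v0 : X.a y ≠ 0)
    (h : ∀ z, X.a z = 0 ∨ X.a z = X.a y ∨ X.a z = -X.a y) : (n (X.a y) : ℚ) * X.a y 1 = 0 := by
  classical
  have h1 := sum_sub hn {X.a y, -X.a y} (by
    intro u hu
    rw [Finset.mem_insert, Finset.mem_singleton] at hu
    rcases hu with rfl | rfl
    · exact ⟨y, rfl⟩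
    · exact ⟨Γ.c • y, X.a_conj y⟩) (by
    intro z
    rw [Finset.mem_insert, Finset.mem_singleton]
    exact h z)
  rw [Finset.sum_pair (ne_neg v0), hn.1, Pi.neg_apply] at h1
  push_cast at h1
  linarith

theorem rel2 {n : (Γ.G → ℚ) → ℤ} (hn : IsRelation X n) {y z : X.S} (v0 : X.a y ≠ 0)
    (w0 : X.a z ≠ 0) (hvw : NE (X.a y) (X.a z))
    (h : ∀ t, X.a t = 0 ∨ (X.a t = X.a y ∨ X.a t = -X.a y) ∨ (X.a t = X.a z ∨ X.a t = -X.a z)) :
    (n (X.a y) : ℚ) * X.a y 1 + (n (X.a z) : ℚ) * X.a z 1 = 0 := by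
  classical
  have h1 := sum_sub hn ({X.a y, -X.a y} ∪ {X.a z, -X.a z}) (by
    intro u hu
    rw [Finset.mem_union, Finset.mem_insert, Finset.mem_singleton, Finset.mem_insert,
      Finset.mem_singleton] at hu
    rcases hu with (rfl | rfl) | (rfl | rfl)
    · exact ⟨y, rfl⟩
    · exact ⟨Γ.c • y, X.a_conj y⟩
    · exact ⟨z, rfl⟩
    · exact ⟨Γ.c • z, X.a_conj z⟩) (by
    intro t
    rw [Finset.mem_union, Finset.mem_insert, Finset.mem_singleton, Finset.mem_insert,
      Finset.mem_singleton]
    exact h t)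
  have hd : Disjoint ({X.a y, -X.a y} : Finset (Γ.G → ℚ)) {X.a z, -X.a z} := by
    rw [Finset.disjoint_left]
    intro u hu hu'
    rw [Finset.mem_insert, Finset.mem_singleton] at hu hu'
    rcases hu with rfl | rfl <;> rcases hu' with e | e
    · exact hvw.1 e
    · exact hvw.2 e
    · exact hvw.2 (by rw [← e, neg_neg])
    · exact hvw.1 (neg_injective e)
  rw [Finset.sum_union hd, Finset.sum_pair (ne_neg v0), Finset.sum_pair (ne_neg w0), hn.1, hn.1,
    Pi.neg_apply, Pi.neg_apply] at h1
  push_cast at h1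
  linarith

/-- integrality for the elements of the orbit with the same slopes -/
theorem int_index {y : X.S} (hd : ∀ d ∈ Γ.D, rho d (X.a y) = X.a y) :
    ∃ k : ℤ, (index X y : ℚ) * (X.a y 1 + 1 / 2) = k := by
  classical
  set T : Finset X.S := Finset.univ.filter fun z => z ∈ MulAction.orbit Γ.G y ∧ X.a z = X.a y with hT
  obtain ⟨k, hk⟩ := X.integral T (by
    intro d hdD x hx
    rw [hT, Finset.mem_filter] at hx ⊢
    obtain ⟨-, ⟨g, rfl⟩, h2⟩ := hx
    refine ⟨Finset.mem_univ _, ⟨d * g, ?_⟩, ?_⟩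
    · exact mul_smul d g y
    · rw [X.a_smul, h2, hd d hdD])
  refine ⟨k, ?_⟩
  rw [← hk, index_eq_card y, ← hT, ← nsmul_eq_mul, ← Finset.sum_const]
  refine Finset.sum_congr rfl fun z hz => ?_
  rw [hT, Finset.mem_filter] at hz
  have h1 := congrFun hz.2.2 1
  rw [X.a_apply z, one_smul] at h1
  linarith

theorem index_of_half {y : X.S} (hh : ∀ k, X.a y k = 1 / 2 ∨ X.a y k = -(1 / 2)) :
    index X y = 1 := by
  classical
  rw [index_eq_card y, Finset.card_eq_one]
  refine ⟨y, ?_⟩
  ext z
  rw [Finset.mem_filter, Finset.mem_singleton]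
  constructor
  · rintro ⟨-, ⟨g, rfl⟩, h2⟩
    refine X.split y (fun h => ?_) g (fun h => ?_)
    · rcases hh h with h1 | h1 <;> rw [X.a_apply] at h1
      · right
        linarith
      · left
        linarith
    · have h1 := congrFun h2 h
      rw [X.a_apply, X.a_apply] at h1
      linarith
  · rintro rfl
    exact ⟨Finset.mem_univ _, MulAction.mem_orbit_self _, rfl⟩

end IndexBAux

open IndexBAux in
theorem index_dvd_B (h8 : Fintype.card X.S ≤ 8) {n : (Γ.G → ℚ) → ℤ} (hn : IsRelation X n)
    {y : X.S} (hy : n (X.a y) ≠ 0) (hg : ∀ g, rho g (X.a y) = X.a y ∨ rho g (X.a y) = -X.a y) :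
    (index X y : ℤ) ∣ n (X.a y) := by
  have v0 : X.a y ≠ 0 := by
    intro h
    rw [h, hn.zero] at hy
    exact hy rfl
  have hf : CMDatum.Fixed (X.a y) := hg
  have v1 : X.a y 1 ≠ 0 := hf.one_ne v0
  have mv : X.m (X.a y) ≠ 0 := by
    have := X.m_pos y
    omega
  by_cases hh : X.a y 1 = 1 / 2 ∨ X.a y 1 = -(1 / 2)
  · rw [index_of_half (hf.half hh)]
    exact one_dvd _
  push Not at hh
  have habs := X.v_abs mv 1
  have hlt1 : -(1 / 2) < X.a y 1 := lt_of_le_of_ne habs.1 fun e => hh.2 e.symm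
  have hlt2 : X.a y 1 < 1 / 2 := lt_of_le_of_ne habs.2 hh.1
  obtain ⟨k, hk⟩ := int_index (hf.dec v0 mv)
  have he1 := one_le_index y
  have hem := index_le_m y
  have he3 : 3 ≤ index X y := by
    by_contra hlt
    have hcase : index X y = 1 ∨ index X y = 2 := by omega
    rcases hcase with e | e
    · rw [e, Nat.cast_one, one_mul] at hk
      have h1 : (0 : ℚ) < k := by rw [← hk]; linarith
      have h2 : (k : ℚ) < 1 := by rw [← hk]; linarith
      have h3 : 0 < k := by exact_mod_cast h1
      have h4 : k < 1 := by exact_mod_cast h2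
      omega
    · rw [e] at hk
      push_cast at hk
      have h1 : (0 : ℚ) < k := by rw [← hk]; linarith
      have h2 : (k : ℚ) < 2 := by rw [← hk]; linarith
      have h3 : 0 < k := by exact_mod_cast h1
      have h4 : k < 2 := by exact_mod_cast h2
      have h5 : k = 1 := by omega
      rw [h5] at hk
      push_cast at hk
      apply v1
      linarith
  have hcl : ∃ z, X.a z ≠ 0 ∧ NE (X.a y) (X.a z) := by
    by_contra hc
    push Not at hc
    have h1 := rel1 hn v0 (fun z => by
      by_cases hz : X.a z = 0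
      · exact Or.inl hz
      · right
        have h2 := Pc0b458F.not_NE (hc z hz)
        rcases h2 with h2 | h2
        · exact Or.inl h2.symm
        · right
          rw [h2, neg_neg])
    rcases mul_eq_zero.1 h1 with h2 | h2
    · exact hy (by exact_mod_cast h2)
    · exact v1 h2
  obtain ⟨z, w0, hvw⟩ := hcl
  have hz1 := X.m_pos z
  have hhalf := X.half [X.a y, X.a z] (by simpa using hvw) (by
    intro u hu
    simp only [List.mem_cons, List.not_mem_nil, or_false] at hu
    rcases hu with rfl | rfl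
    · exact v0
    · exact w0)
  simp only [List.map_cons, List.map_nil, List.sum_cons, List.sum_nil] at hhalf
  have hmv : X.m (X.a y) = 3 := by omega
  have hmw : X.m (X.a z) = 1 := by omega
  have hm0 : X.m 0 = 0 := by omega
  have hall : ∀ t, (X.a t = X.a y ∨ X.a t = -X.a y) ∨ (X.a t = X.a z ∨ X.a t = -X.a z) := by
    intro t
    by_contra hc
    have u0 : X.a t ≠ 0 := by
      intro h
      have := X.zero_two h
      omega
    have hyu : NE (X.a y) (X.a t) := by
      by_contra h
      apply hc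
      left
      rcases Pc0b458F.not_NE h with h | h
      · exact Or.inl h.symm
      · right
        rw [h, neg_neg]
    have hzu : NE (X.a z) (X.a t) := by
      by_contra h
      apply hc
      right
      rcases Pc0b458F.not_NE h with h | h
      · exact Or.inl h.symm
      · right
        rw [h, neg_neg]
    have h1 := X.half [X.a y, X.a z, X.a t] (by
      simp only [List.pairwise_cons, List.mem_cons, List.not_mem_nil, or_false, forall_eq_or_imp,
        forall_eq, List.Pairwise.nil, and_true, IsEmpty.forall_iff, implies_true]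
      exact ⟨⟨hvw, hyu⟩, hzu⟩) (by
      intro u hu
      simp only [List.mem_cons, List.not_mem_nil, or_false] at hu
      rcases hu with rfl | rfl | rfl
      · exact v0
      · exact w0
      · exact u0)
    simp only [List.map_cons, List.map_nil, List.sum_cons, List.sum_nil] at h1
    have := X.m_pos t
    omega
  have hidx : index X y = 3 := by omega
  -- the value of `v` at `1`
  have hv6 : X.a y 1 = 1 / 6 ∨ X.a y 1 = -(1 / 6) := by
    rw [hidx] at hk
    push_cast at hk
    have h1 : (0 : ℚ) < k := by rw [← hk]; linarith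
    have h2 : (k : ℚ) < 3 := by rw [← hk]; linarith
    have h3 : 0 < k := by exact_mod_cast h1
    have h4 : k < 3 := by exact_mod_cast h2
    have h5 : k = 1 ∨ k = 2 := by omega
    rcases h5 with h5 | h5 <;> rw [h5] at hk <;> push_cast at hk
    · right
      linarith
    · left
      linarith
  -- the other class
  have hfw : CMDatum.Fixed (X.a z) := by
    intro g
    have h1 : X.m (rho g (X.a z)) = 1 := by rw [X.m_rho, hmw]
    have h2 := hall (g • z)
    rw [X.a_smul] at h2
    rcases h2 with h2 | h2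
    · have h3 := X.m_class h2
      omega
    · exact h2
  have mw : X.m (X.a z) ≠ 0 := by
    rw [hmw]
    norm_num
  have hw2 : X.a z 1 = 1 / 2 ∨ X.a z 1 = -(1 / 2) := X.half_of_one hmw (hfw.dec w0 mw)
  have hrel := rel2 hn v0 w0 hvw fun t => Or.inr (hall t)
  rw [hidx]
  have key : n (X.a y) = 3 * n (X.a z) ∨ n (X.a y) = -(3 * n (X.a z)) := by
    rcases hv6 with h1 | h1 <;> rcases hw2 with h2 | h2 <;> rw [h1, h2] at hrel
    · right
      have : (n (X.a y) : ℚ) = -(3 * n (X.a z)) := by linarith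
      exact_mod_cast this
    · left
      have : (n (X.a y) : ℚ) = 3 * n (X.a z) := by linarith
      exact_mod_cast this
    · left
      have : (n (X.a y) : ℚ) = 3 * n (X.a z) := by linarith
      exact_mod_cast this
    · right
      have : (n (X.a y) : ℚ) = -(3 * n (X.a z)) := by linarith
      exact_mod_cast this
  rcases key with h | h
  · rw [h]
    exact Dvd.intro _ rfl
  · rw [h]
    exact (Dvd.intro _ rfl : (3 : ℤ) ∣ 3 * n (X.a z)).neg_right

end Pc0b458X
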