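import Pool.Agent.Lib.Pc0b458X.Core
import Pool.Agent.Lib.Pc0b458X.Bridge
import Pool.Agent.Lib.Pc0b458X.CharRel
import Pool.Agent.Lib.Pc0b458X.CharOne
import Pool.Agent.Lib.Pc0b458X.IndexA
import Pool.Agent.Lib.Pc0b458X.IndexB
import Pool.Agent.Lib.Pc0b458X.DOrb
import Pool.Agent.Lib.Pc0b458X.Exc

/-!
# The main theorems
-/

universe u

namespace Pc0b458X

open Pc0b458Z Pc0b458G
open Pc0b458F (CMDatum rho NE)

variable {Γ : Galois}

namespace MainAux

/-- a relation between the eigenvalues of `A` is a relation between the eigenvalues of `B` -/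
theorem relation_of {X X₀ : CMDatum Γ.G Γ.D Γ.c}
    (h : ∀ x, X.a x ≠ 0 → ∃ y, X₀.a y = X.a x) {n : (Γ.G → ℚ) → ℤ} (hn : IsRelation X n) :
    IsRelation X₀ n := by
  classical
  have h0 := hn.zero
  have h1 : ∀ v, n v ≠ 0 → ∃ y, X₀.a y = v := by
    intro v hv
    obtain ⟨x, hx⟩ := hn.2.1 v hv
    obtain ⟨y, hy⟩ := h x (by rintro h2; apply hv; rw [← hx, h2, h0])
    exact ⟨y, hy.trans hx⟩
  refine ⟨hn.1, h1, ?_⟩
  have e1 : ∑ v ∈ Finset.univ.image X₀.a, n v • v =
      ∑ v ∈ Finset.univ.image X₀.a ∪ Finset.univ.image X.a, n v • v := by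
    refine Finset.sum_subset Finset.subset_union_left fun v _ hv => ?_
    by_contra hne
    have h2 : n v ≠ 0 := fun h3 => hne (by rw [h3, zero_smul])
    obtain ⟨y, hy⟩ := h1 v h2
    exact hv (Finset.mem_image.2 ⟨y, Finset.mem_univ y, hy⟩)
  have e2 : ∑ v ∈ Finset.univ.image X.a, n v • v =
      ∑ v ∈ Finset.univ.image X₀.a ∪ Finset.univ.image X.a, n v • v := by
    refine Finset.sum_subset Finset.subset_union_right fun v _ hv => ?_
    by_contra hne
    have h2 : n v ≠ 0 := fun h3 => hne (by rw [h3, zero_smul])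
    obtain ⟨y, hy⟩ := hn.2.1 v h2
    exact hv (Finset.mem_image.2 ⟨y, Finset.mem_univ y, hy⟩)
  have e3 := hn.2.2
  rw [e1, ← e2]
  convert e3

theorem nonsplit_ker {χ : Γ.G →* ℤˣ} (hc : χ Γ.c = -1) (hD : ¬ Γ.D ≤ χ.ker) :
    Nonsplit Γ χ.ker := by
  refine ⟨?_, ?_, hD⟩
  · have h1 : χ.range = ⊤ := by
      rw [eq_top_iff]
      intro u _
      rcases Int.units_eq_one_or u with h | h
      · exact ⟨1, by rw [map_one, h]⟩
      · exact ⟨Γ.c, by rw [hc, h]⟩
    rw [Subgroup.index_ker, h1]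
    have h2 : Nat.card (⊤ : Subgroup ℤˣ) = Nat.card ℤˣ := Nat.card_congr Subgroup.topEquiv.toEquiv
    rw [h2, Nat.card_eq_fintype_card]
    rfl
  · rw [MonoidHom.mem_ker, hc]
    decide

end MainAux

open MainAux

theorem positive {X₀ : CMDatum Γ.G Γ.D Γ.c} {Y : NumAb.{u}} (R : BuiltFrom X₀ Y)
    (hS : Signed X₀) {n : ℕ} (hn : 2 * n ≤ Y.g) : Y.Positive n := by
  obtain ⟨χ, hχ⟩ := hS
  obtain ⟨H, h, hH⟩ : ∃ (H : Subgroup Γ.G) (_ : Nonsplit Γ H),
      χ Γ.c = -1 → ¬ Γ.D ≤ χ.ker → H = χ.ker := by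
    by_cases hc : χ Γ.c = -1 ∧ ¬ Γ.D ≤ χ.ker
    · exact ⟨χ.ker, nonsplit_ker hc.1 hc.2, fun _ _ => rfl⟩
    · obtain ⟨H, h⟩ := R.nonsplit
      exact ⟨H, h, fun h1 h2 => absurd ⟨h1, h2⟩ hc⟩
  have hfac : ∀ x, (R.arith H h).X.a x ≠ 0 → ∃ y, X₀.a y = (R.arith H h).X.a x := fun x hx =>
    R.factor H h x fun hs => hx (supersingular_iff.1 hs)
  have hidx : ∀ x y, (R.arith H h).X.a x ≠ 0 → X₀.a y = (R.arith H h).X.a x →
      index X₀ y = index (R.arith H h).X x := fun x y hx =>
    R.index_eq H h x y fun hs => hx (supersingular_iff.1 hs)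
  refine Pc0b458I.positive_of_good (R.sp H h) hn fun η hη _ _ hN => ?_
  obtain ⟨J, hJ, hwt⟩ := exists_set (R.arith H h) hη
  have key := good_all (signSystem (R.arith H h)) χ
    (fun m hm => (hχ m (relation_of hfac hm)).1) (by
      intro m hm x hx
      have hx0 : (R.arith H h).X.a x ≠ 0 := by
        intro h0
        apply hx
        rw [h0, hm.zero]
      obtain ⟨y, hy⟩ := hfac x hx0
      rw [← hidx x y hx0 hy, ← hy]
      exact (hχ m (relation_of hfac hm)).2 y) (by
      intro x y hxy hx0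
      obtain ⟨z, hz⟩ := hfac x hx0
      rw [← hidx x z hx0 hz, ← hidx y z (hxy ▸ hx0) (hz.trans hxy)]) (by
      intro hc hD x hx g hg
      refine R.ss H h x hx g ?_
      rw [hH hc hD]
      exact hg) J hJ
  rw [hwt] at key
  exact key hN

theorem signed_of_small {X : CMDatum Γ.G Γ.D Γ.c} (h8 : Fintype.card X.S ≤ 8)
    (hE : ¬ Exceptional X) : Signed X := by
  classical
  have hdvd : ∀ n, IsRelation X n → ∀ y, (index X y : ℤ) ∣ n (X.a y) := by
    intro n hn y
    by_cases hy : n (X.a y) = 0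
    · rw [hy]; exact dvd_zero _
    by_cases hg : ∃ g, NE (X.a y) (rho g (X.a y))
    · obtain ⟨g, hg⟩ := hg
      rw [index_one h8 hn hy hg]
      exact one_dvd _
    · push Not at hg
      refine index_dvd_B h8 hn hy fun g => ?_
      rcases Pc0b458F.not_NE (hg g) with h | h
      · exact Or.inl h.symm
      · exact Or.inr (neg_eq_iff_eq_neg.2 h).symm
  suffices h : ∃ χ : Γ.G →* ℤˣ, ∀ n, IsRelation X n → ∀ g v, n (rho g v) = χ g * n v by
    obtain ⟨χ, hχ⟩ := h
    exact ⟨χ, fun n hn => ⟨hχ n hn, hdvd n hn⟩⟩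
  by_cases h1 : rank X ≤ 1
  · exact char_of_rank_one h1
  by_cases h2 : eigenvalues X ≤ 2 * rank X + 2
  · exact char_of_relations h2
  exfalso
  apply hE
  have hle : eigenvalues X ≤ (Finset.univ.image X.a).card := Finset.card_le_card
    (Finset.erase_subset _ _)
  have hle2 : (Finset.univ.image X.a).card ≤ Fintype.card X.S := Finset.card_image_le
  obtain ⟨r, hr⟩ := eigenvalues_even (X := X)
  have e8 : eigenvalues X = 8 := by omega
  have er : rank X = 2 := by omega
  have ec : Fintype.card X.S = 8 := by omega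
  have ei : (Finset.univ.image X.a).card = Fintype.card X.S := by omega
  have hinj : Function.Injective X.a := by
    have h3 : (Finset.univ.image X.a).card = (Finset.univ : Finset X.S).card := ei
    rw [Finset.card_image_iff] at h3
    exact fun x y hxy => h3 (by simp) (by simp) hxy
  have h0 : ∀ x, X.a x ≠ 0 := by
    intro x hx
    have h3 : (0 : Γ.G → ℚ) ∈ Finset.univ.image X.a :=
      Finset.mem_image.2 ⟨x, Finset.mem_univ x, hx⟩
    have h4 := Finset.card_erase_lt_of_mem h3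
    have h5 : eigenvalues X = ((Finset.univ.image X.a).erase 0).card := by
      unfold eigenvalues
      congr!
    omega
  exact exceptional ec hinj h0 er (values hinj h0 er.le)

theorem signed_of_one {X : CMDatum Γ.G Γ.D Γ.c} (hC : Commutative X)
    (h : eigenvalues X ≤ 2 * rank X + 2) : Signed X := by
  obtain ⟨χ, hχ⟩ := char_of_relations h
  refine ⟨χ, fun n hn => ⟨hχ n hn, fun y => ?_⟩⟩
  by_cases hy : Supersingular X y
  · rw [supersingular_iff.1 hy, hn.zero]
    exact dvd_zero _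
  · rw [hC y hy]
    exact one_dvd _

end Pc0b458X
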