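import Pool.Agent.Lib.Pc0b458X.Stmt

/-!
# Sign systems

The properties of the algebraic weights (`N`) and of those with the right sign (`Gd`) which are used
in the combinatorial part of the proof. A weight is given by a free subset `J` of `X.S`.
-/

namespace Pc0b458X

open Pc0b458F (CMDatum rho)

variable {Γ : Galois} (X : CMDatum Γ.G Γ.D Γ.c)

/-- properties of algebraic weights and of their signs -/
structure SignSystem (N Gd : Finset X.S → Prop) : Prop where
  tate : ∀ J, X.Free J → N J → Even J.card ∧ ∑ x ∈ J, X.a x = 0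
  empty : Gd ∅
  pair_N : ∀ J x y, X.Free J → x ∈ J → y ∈ J → x ≠ y → X.a x + X.a y = 0 → N J →
    N ((J.erase x).erase y)
  pair_G : ∀ J x y, X.Free J → x ∈ J → y ∈ J → x ≠ y → X.a x + X.a y = 0 →
    Gd ((J.erase x).erase y) → Gd J
  move_N : ∀ J x y, X.Free J → x ∈ J → y ∉ J → Γ.c • y ∉ J → X.a x = X.a y → N J →
    N (insert y (J.erase x))
  move_G : ∀ J x y, X.Free J → x ∈ J → y ∉ J → Γ.c • y ∉ J → X.a x = X.a y →
    Gd (insert y (J.erase x)) → Gd J
  rankTwo : ∀ J, X.Free J → X.RankTwo J → N J → Gd J

open Classical in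
/-- the number of the elements of `J` with slopes `v` -/
noncomputable def cnt (J : Finset X.S) (v : Γ.G → ℚ) : ℕ := (J.filter fun x => X.a x = v).card

variable {X}

theorem supersingular_iff {x : X.S} : Supersingular X x ↔ X.a x = 0 := by
  constructor
  · intro h
    funext g
    rw [CMDatum.a_apply, h g, Pi.zero_apply]
    norm_num
  · intro h g
    have := congrFun h g
    rw [CMDatum.a_apply, Pi.zero_apply] at this
    linarith

theorem index_eq_card (x : X.S) [DecidablePred fun y : X.S => y ∈ MulAction.orbit Γ.G x ∧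
    X.a y = X.a x] :
    index X x = (Finset.univ.filter fun y => y ∈ MulAction.orbit Γ.G x ∧ X.a y = X.a x).card := by
  classical
  rw [index, Nat.card_eq_fintype_card, Fintype.card_subtype]

theorem one_le_index (x : X.S) : 1 ≤ index X x := by
  classical
  rw [index_eq_card]
  exact Finset.card_pos.2 ⟨x, by simp⟩

theorem index_le_m (x : X.S) : index X x ≤ X.m (X.a x) := by
  classical
  rw [index_eq_card]
  refine Finset.card_le_card fun y hy => ?_
  rw [Finset.mem_filter] at hy
  exact X.mem_fib.2 hy.2.2

theorem IsRelation.zero {n : (Γ.G → ℚ) → ℤ} (h : IsRelation X n) : n 0 = 0 := by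
  have := h.1 0
  rw [neg_zero] at this
  omega

end Pc0b458X
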