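import Pool.Agent.Lib.Pc0b458G.Stmt
import Pool.Agent.Lib.Pc0b458F.Datum

/-!
# Frobenius eigenvalues and their relations

The setting of `MP_c0b458_ag`. `Pc0b458Z.NumAb` and `Pc0b458Z.CMAb` (file
`Pool.Agent.Lib.Pc0b458V.Stmt`) are the ring of cycles modulo numerical equivalence on a polarised
abelian variety over a field, and the classes of effective cycles on an abelian variety with
complex multiplication over an algebraic closure of a finite field; `Pc0b458G.Specialisation` (file
`Pool.Agent.Lib.Pc0b458G.Stmt`) is the specialisation of cycles. `Pc0b458F.CMDatum` (file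
`Pool.Agent.Lib.Pc0b458F.Datum`) is the set of homomorphisms of a CM algebra with the action of a Galois
group and the slopes of the Frobenius element.

Here we add the action of the Galois group to `CMAb`, with theorems of Tate and Ancona, and define
relations between the Frobenius eigenvalues.
-/

universe u

namespace Pc0b458X

open Pc0b458Z Pc0b458G
open Pc0b458F (CMDatum rho)

/-- The Galois group `G` of a finite Galois CM extension `K` of the rationals, the decomposition group
`D` of a place above `p` and the complex conjugation `c`. -/
structure Galois where
  G : Type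
  [grp : Group G]
  [fin : Fintype G]
  D : Subgroup G
  c : G

attribute [instance] Galois.grp Galois.fin

section Sets

variable {g : ℕ} {S : Type} [DecidableEq S]

/-- The weight of a set `J` of homomorphisms of the CM algebra. If `J` contains no complex conjugate
elements then `mon (wt e J)` is the product of the generators in `J`. -/
def wt (e : S ≃ Fin g × Bool) (J : Finset S) : Fin g → ℤ :=
  fun s => (if e.symm (s, true) ∈ J then 1 else 0) - (if e.symm (s, false) ∈ J then 1 else 0)

end Sets

/-- The Galois group acts on the set `X.S` of homomorphisms from the CM algebra of `A` to `K`.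
Known properties of the classes of algebraic cycles on `A`. -/
structure Arith (Γ : Galois) (A : CMAb) where
  X : CMDatum Γ.G Γ.D Γ.c
  /-- a homomorphism is a coordinate of `ℂ^g` or the complex conjugate of a coordinate -/
  e : X.S ≃ Fin A.g × Bool
  e_conj : ∀ x, e (Γ.c • x) = ((e x).1, !(e x).2)
  /-- the Frobenius eigenvalue of an algebraic weight is `q ^ n` times a root of unity -/
  frobenius : ∀ (n : ℕ) (J : Finset X.S), J.card = 2 * n → X.Free J → A.Algebraic (wt e J) →
    X.Tate n J
  /-- Tate's theorem for divisors -/
  divisors : ∀ x y : X.S, x ≠ y → y ≠ Γ.c • x → (∀ g : Γ.G, X.s (g • x) + X.s (g • y) = 1) →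
    A.Algebraic (wt e {x, y})
  /-- Ancona's theorem on motives of rank two which lift to characteristic zero: if every element
  of the Galois group maps `J` to `J` or to the complex conjugate set then the classes of weights
  `± wt e J` form a part of the cohomology which is defined over `ℚ` and has rank two, and the form
  of Q1 is positive on the algebraic classes in this part. -/
  ancona : ∀ (n : ℕ) (J : Finset X.S), J.card = 2 * n → X.Free J → X.RankTwo J →
    ∀ z ∈ Submodule.span ℝ (A.alg n),
      z ∈ Submodule.span ℂ ({mon (wt e J), mon (-wt e J)} : Set (Coh A.g 1)) →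
      ∃ r : ℝ, 0 ≤ r ∧ (-1) ^ n * A.int (z * z * pol A.g ^ (A.g - 2 * n)) = r

section Relations

variable {Γ : Galois} (X : CMDatum Γ.G Γ.D Γ.c)

/-- all conjugates of `x` have slope `1 / 2` -/
def Supersingular (x : X.S) : Prop := ∀ g : Γ.G, X.s (g • x) = 1 / 2

/-- The number of the conjugates of `x` with the same slopes as `x`: the degree of the field
generated by the CM algebra at `x` over its subfield generated by (a power of) the Frobenius
element. -/
noncomputable def index (x : X.S) : ℕ :=
  Nat.card {y : X.S // y ∈ MulAction.orbit Γ.G x ∧ X.a y = X.a x}

open Classical in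
/-- A relation between the Frobenius eigenvalues: `X.a y` is the family of the slopes of the
Frobenius eigenvalue `π_y / √q` and of its conjugates, it is `0` if this is a root of unity. The
exponent of the eigenvalue with slopes `v` is `n v`, and `n (-v) = -n v`. -/
def IsRelation (n : (Γ.G → ℚ) → ℤ) : Prop :=
  (∀ v, n (-v) = -n v) ∧ (∀ v, n v ≠ 0 → ∃ y, X.a y = v) ∧
    ∑ v ∈ Finset.univ.image X.a, n v • v = 0

/-- The Galois group acts on the relations between the Frobenius eigenvalues through a character
with values `1`, `-1`, and the exponents are divisible by the indices of the endomorphism algebras. -/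
def Signed : Prop :=
  ∃ χ : Γ.G →* ℤˣ, ∀ n, IsRelation X n →
    (∀ g v, n (rho g v) = χ g * n v) ∧ ∀ y, (index X y : ℤ) ∣ n (X.a y)

/-- the endomorphism algebras of the simple factors which are not supersingular are commutative -/
def Commutative : Prop := ∀ y, ¬ Supersingular X y → index X y = 1

open Classical in
/-- the number of the Frobenius eigenvalues `π / √q` (up to roots of unity) which are not roots of
unity -/
noncomputable def eigenvalues : ℕ := ((Finset.univ.image X.a).erase 0).card

/-- the rank of the group generated by the Frobenius eigenvalues `π / √q` -/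
noncomputable def rank : ℕ := Module.finrank ℚ (Submodule.span ℚ (Set.range X.a))

/-- The exceptional family: the slopes are `1/2 ± p/2`, `1/2 ± q/2`, `1/2 ± (p+q)/2`,
`1/2 ± (p-q)/2`, where at each place one of `p`, `q` is zero and the other one is `1` or `-1`. -/
def Exceptional : Prop :=
  ∃ p q : Γ.G → ℚ,
    (∀ g, (p g = 0 ∧ (q g = 1 ∨ q g = -1)) ∨ (q g = 0 ∧ (p g = 1 ∨ p g = -1))) ∧
    (∃ g, rho g p = q ∨ rho g p = -q) ∧
    X.slopes = ({p, -p, q, -q, p + q, -(p + q), p - q, -(p - q)} : Multiset (Γ.G → ℚ)).map
      fun v g => 1 / 2 + v g / 2

end Relations

/-- `H` is the Galois group of `K` over an imaginary quadratic subfield in which `p` does not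
split -/
def Nonsplit (Γ : Galois) (H : Subgroup Γ.G) : Prop := H.index = 2 ∧ Γ.c ∉ H ∧ ¬ Γ.D ≤ H

/-- `B` is the abelian variety with CM datum `X₀`. The abelian variety `Y` has a reduction `A` all of
whose simple factors occur in `B` or are supersingular, for example `Y` is a power of `B`. The CM
algebra of `A` is a product of CM fields of the degrees `2 dim B_i`, `B_i` the simple factors, and for
every imaginary quadratic field in `K` in which `p` does not split it can be chosen so
that it acts on the supersingular part through this field (Tate, Honda, Shimura, Taniyama). -/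
structure BuiltFrom {Γ : Galois} (X₀ : CMDatum Γ.G Γ.D Γ.c) (Y : NumAb.{u}) where
  /-- `K` contains an imaginary quadratic field in which `p` does not split -/
  nonsplit : ∃ H, Nonsplit Γ H
  /-- the reduction with a CM algebra -/
  A : ∀ H, Nonsplit Γ H → CMAb
  arith : ∀ H h, Arith Γ (A H h)
  sp : ∀ H h, Specialisation Y (A H h)
  ss : ∀ H h x, Supersingular (arith H h).X x → ∀ g ∈ H, g • x = x
  factor : ∀ H h x, ¬ Supersingular (arith H h).X x → ∃ y : X₀.S, X₀.a y = (arith H h).X.a x
  index_eq : ∀ H h x y, ¬ Supersingular (arith H h).X x → X₀.a y = (arith H h).X.a x →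
    index X₀ y = index (arith H h).X x

end Pc0b458X
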